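import Mathlib
import Pool.Agent.TH932.S2.F.Win

set_option autoImplicit false

/-!
The number of the factors of a word which is read along a path.
-/

namespace Pool.Agent.V5helper2.FC

open Finset Pool.Agent.TH932.Words Pool.Agent.TH932.S2.F

/-- discrete intermediate values -/
theorem ivt {e : ℕ → ℤ} {H : ℕ} (hstep : ∀ j, j + 1 < H → |e (j + 1) - e j| ≤ 1) {j : ℕ} (r : ℕ)
    (hr : j + r < H) {v : ℤ} (hv : (e j ≤ v ∧ v ≤ e (j + r)) ∨ (e (j + r) ≤ v ∧ v ≤ e j)) :
    ∃ s ≤ r, e (j + s) = v := by
  induction r with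
  | zero =>
    refine ⟨0, le_rfl, ?_⟩
    rw [add_zero] at hv ⊢
    omega
  | succ r ih =>
    have h1 := abs_le.1 (hstep (j + r) (by omega))
    rw [show j + r + 1 = j + (r + 1) by omega] at h1
    by_cases h : (e j ≤ v ∧ v ≤ e (j + r)) ∨ (e (j + r) ≤ v ∧ v ≤ e j)
    · obtain ⟨s, hs, h2⟩ := ih (by omega) h
      exact ⟨s, by omega, h2⟩
    · exact ⟨r + 1, le_rfl, by omega⟩

/-- a path in a finite set does not get far -/
theorem path_near {e : ℕ → ℤ} {H : ℕ} (hstep : ∀ j, j + 1 < H → |e (j + 1) - e j| ≤ 1) {Mu : Finset ℤ}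
    {j : ℕ} (r : ℕ) (hr : j + r < H) (hMu : ∀ s ≤ r, e (j + s) ∈ Mu) :
    |e (j + r) - e j| + 1 ≤ Mu.card := by
  have h1 : Finset.Icc (min (e j) (e (j + r))) (max (e j) (e (j + r))) ⊆ Mu := by
    intro v hv
    rw [Finset.mem_Icc] at hv
    obtain ⟨s, hs, h2⟩ := ivt hstep r hr (v := v) (by
      rcases le_total (e j) (e (j + r)) with h | h
      · rw [min_eq_left h, max_eq_right h] at hv
        exact Or.inl hv
      · rw [min_eq_right h, max_eq_left h] at hv
        exact Or.inr hv)
    rw [← h2]
    exact hMu s hs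
  have h2 := card_le_card h1
  rw [Int.card_Icc] at h2
  rcases le_total (e j) (e (j + r)) with h | h
  · rw [min_eq_left h, max_eq_right h] at h2
    rw [abs_of_nonneg (by omega)]
    omega
  · rw [min_eq_right h, max_eq_left h] at h2
    rw [abs_of_nonpos (by omega)]
    omega

/-- **The decomposition in time.** -/
theorem wc_path (w : ℕ → ZMod 2) (e : ℕ → ℤ) {H N a : ℕ} (hN : 1 ≤ N) (Mu : Finset ℤ)
    (hstep : ∀ j, j + 1 < H → |e (j + 1) - e j| ≤ 1)
    (hleave : ∀ s s', s + 1 < H → s' + 1 < H → e s = e s' → e s ∉ Mu → e (s + 1) ≠ e s →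
      e (s' + 1) ≠ e s' → s = s')
    (henter : ∀ s s', s + 1 < H → s' + 1 < H → e (s + 1) = e (s' + 1) → e (s + 1) ∉ Mu →
      e (s + 1) ≠ e s → e (s' + 1) ≠ e s' → s = s')
    (hpar : ∀ j, j + 1 < H → e j ∉ Mu → e (j + 1) ∉ Mu → w j = w (j + 1))
    (hA : ((fun i => fac w N i) '' {j | j + N ≤ H ∧ ∀ t < N, e (j + t) ∈ Mu}).ncard ≤ a) :
    wc w H N ≤ a + 2 + 4 * Mu.card * N := by
  classical
  -- the times of a change of colour
  set CC1 := (range H).filter fun s => s + 1 < H ∧ e s ∉ Mu ∧ e (s + 1) ∈ Mu with hCC1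
  set CC2 := (range H).filter fun s => s + 1 < H ∧ e s ∈ Mu ∧ e (s + 1) ∉ Mu with hCC2
  have hc1 : CC1.card ≤ 2 * Mu.card := by
    have h1 : CC1.card ≤ (Mu ×ˢ ({-1, 1} : Finset ℤ)).card := by
      apply card_le_card_of_injOn (fun s => (e (s + 1), e s - e (s + 1)))
      · intro s hs
        rw [mem_coe, hCC1, mem_filter] at hs
        obtain ⟨-, h1, h2, h3⟩ := hs
        rw [mem_coe, mem_product]
        refine ⟨h3, ?_⟩
        have h4 := abs_le.1 (hstep s h1)
        have h5 : e s ≠ e (s + 1) := by
          intro h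
          exact h2 (h ▸ h3)
        simp only [mem_insert, mem_singleton]
        omega
      · intro s hs s' hs' h
        rw [mem_coe, hCC1, mem_filter] at hs hs'
        simp only [Prod.mk.injEq] at h
        refine hleave s s' hs.2.1 hs'.2.1 (by omega) hs.2.2.1 ?_ ?_
        · intro h'
          exact hs.2.2.1 (h' ▸ hs.2.2.2)
        · intro h'
          exact hs'.2.2.1 (h' ▸ hs'.2.2.2)
    rw [card_product] at h1
    have h2 : ({-1, 1} : Finset ℤ).card = 2 := by decide
    rw [h2] at h1
    omega
  have hc2 : CC2.card ≤ 2 * Mu.card := by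
    have h1 : CC2.card ≤ (Mu ×ˢ ({-1, 1} : Finset ℤ)).card := by
      apply card_le_card_of_injOn (fun s => (e s, e (s + 1) - e s))
      · intro s hs
        rw [mem_coe, hCC2, mem_filter] at hs
        obtain ⟨-, h1, h2, h3⟩ := hs
        rw [mem_coe, mem_product]
        refine ⟨h2, ?_⟩
        have h4 := abs_le.1 (hstep s h1)
        have h5 : e s ≠ e (s + 1) := by
          intro h
          exact h3 (h ▸ h2)
        simp only [mem_insert, mem_singleton]
        omega
      · intro s hs s' hs' h
        rw [mem_coe, hCC2, mem_filter] at hs hs'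
        simp only [Prod.mk.injEq] at h
        refine henter s s' hs.2.1 hs'.2.1 (by omega) hs.2.2.2 ?_ ?_
        · intro h'
          exact hs.2.2.2 (h' ▸ hs.2.2.1)
        · intro h'
          exact hs'.2.2.2 (h' ▸ hs'.2.2.1)
    rw [card_product] at h1
    have h2 : ({-1, 1} : Finset ℤ).card = 2 := by decide
    rw [h2] at h1
    omega
  -- the starts near a change of colour
  set CT := (CC1 ∪ CC2).biUnion fun s => (range N).image fun t => s - t with hCT
  have hCTc : CT.card ≤ 4 * Mu.card * N := by
    rw [hCT]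
    refine card_biUnion_le.trans ?_
    have h1 : ∀ s ∈ CC1 ∪ CC2, ((range N).image fun t => s - t).card ≤ N := fun s _ =>
      card_image_le.trans (by rw [card_range])
    refine (sum_le_sum h1).trans ?_
    rw [sum_const, smul_eq_mul]
    have h2 := card_union_le CC1 CC2
    apply Nat.mul_le_mul_right
    omega
  have hsub : (fun i => fac w N i) '' {i | i + N ≤ H} ⊆
      (((fun i => fac w N i) '' {j | j + N ≤ H ∧ ∀ t < N, e (j + t) ∈ Mu}) ∪
        (Set.range fun c : ZMod 2 => fun _ : Fin N => c)) ∪
        ((CT.image fun i => fac w N i : Finset (Fin N → ZMod 2)) : Set (Fin N → ZMod 2)) := by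
    rintro _ ⟨j, hj, rfl⟩
    rw [Set.mem_ofPred_eq] at hj
    by_cases hA' : ∀ t < N, e (j + t) ∈ Mu
    · exact Or.inl (Or.inl ⟨j, ⟨hj, hA'⟩, rfl⟩)
    by_cases hB' : ∀ t < N, e (j + t) ∉ Mu
    · left
      right
      refine ⟨w j, ?_⟩
      funext t
      have h1 : ∀ t < N, w j = w (j + t) := by
        intro t
        induction t with
        | zero => intro _; rfl
        | succ t ih =>
          intro ht
          rw [ih (by omega)]
          exact hpar (j + t) (by omega) (hB' t (by omega)) (hB' (t + 1) ht)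
      exact h1 t.1 t.2
    · right
      rw [mem_coe, mem_image]
      refine ⟨j, ?_, rfl⟩
      push Not at hA' hB'
      obtain ⟨t1, ht1, h1⟩ := hA'
      obtain ⟨t2, ht2, h2⟩ := hB'
      -- there is a change of colour
      have key : ∃ t, t + 1 < N ∧ ((e (j + t) ∉ Mu ∧ e (j + t + 1) ∈ Mu) ∨
          (e (j + t) ∈ Mu ∧ e (j + t + 1) ∉ Mu)) := by
        by_contra hcon
        push Not at hcon
        have h3 : ∀ t < N, (e (j + t) ∈ Mu ↔ e j ∈ Mu) := by
          intro t
          induction t with
          | zero => intro _; rfl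
          | succ t ih =>
            intro ht
            rw [← ih (by omega)]
            obtain ⟨h4, h5⟩ := hcon t ht
            constructor
            · intro h6
              by_contra h7
              exact h4 h7 h6
            · exact h5
        exact h1 ((h3 t1 ht1).2 ((h3 t2 ht2).1 h2))
      obtain ⟨t, ht, h3⟩ := key
      rw [hCT, mem_biUnion]
      refine ⟨j + t, ?_, ?_⟩
      · rw [mem_union]
        rcases h3 with ⟨h3, h4⟩ | ⟨h3, h4⟩
        · left
          rw [hCC1, mem_filter, mem_range]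
          exact ⟨by omega, by omega, h3, h4⟩
        · right
          rw [hCC2, mem_filter, mem_range]
          exact ⟨by omega, by omega, h3, h4⟩
      · rw [mem_image]
        exact ⟨t, mem_range.2 (by omega), by omega⟩
  unfold wc
  refine (Set.ncard_le_ncard hsub (Set.toFinite _)).trans ?_
  refine (Set.ncard_union_le _ _).trans ?_
  apply add_le_add
  · refine (Set.ncard_union_le _ _).trans ?_
    apply add_le_add hA
    have h1 : (Set.range fun c : ZMod 2 => fun _ : Fin N => c) =
        (fun c : ZMod 2 => fun _ : Fin N => c) '' Set.univ := by rw [Set.image_univ]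
    rw [h1]
    refine (Set.ncard_image_le (Set.toFinite _)).trans ?_
    rw [Set.ncard_univ, Nat.card_eq_fintype_card, ZMod.card]
  · rw [Set.ncard_coe_finset]
    exact card_image_le.trans hCTc

end Pool.Agent.V5helper2.FC
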