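import Mathlib
import Pool.Agent.V5helper2.PC.Level
import Pool.Agent.V5helper2.FC.Path

set_option autoImplicit false

/-!
Dyadic levels of the integers and the maps `3x+d`.
-/

namespace Pool.Agent.V5helper2.FC

open Finset Pool.Agent.H944.BX Pool.Agent.V5helper2.PC

/-- the level of an integer: `0` if `|x| < c`, and `v` or `-v` if `c 2 ^ (v - 1) ≤ |x| < c 2 ^ v` -/
def idx (c : ℕ) (x : ℤ) : ℤ := if x.natAbs < c then 0 else x.sign * (1 + Nat.log 2 (x.natAbs / c))

theorem idx_neg (c : ℕ) (x : ℤ) : idx c (-x) = -idx c x := by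
  unfold idx
  rw [Int.natAbs_neg, Int.sign_neg]
  split_ifs
  · rfl
  · ring

variable {c : ℕ}

theorem idx_zero {x : ℤ} (h : |x| < c) : idx c x = 0 := by
  rw [Int.abs_eq_natAbs] at h
  unfold idx
  rw [if_pos (by omega)]

theorem idx_nonneg {x : ℤ} (h : 0 ≤ x) : 0 ≤ idx c x := by
  unfold idx
  split_ifs
  · exact le_rfl
  · apply mul_nonneg
    · rcases h.lt_or_eq with h1 | h1
      · rw [Int.sign_eq_one_of_pos h1]; norm_num
      · rw [← h1]; norm_num
    · positivity

theorem le_idx (hc : 1 ≤ c) {x : ℤ} {v : ℕ} (hv : 1 ≤ v) : (v : ℤ) ≤ idx c x ↔ (c : ℤ) * 2 ^ (v - 1) ≤ x := by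
  have h2v : (1 : ℤ) ≤ 2 ^ (v - 1) := one_le_pow₀ (by norm_num)
  have hcc : (c : ℤ) ≤ c * 2 ^ (v - 1) := le_mul_of_one_le_right (by omega) h2v
  unfold idx
  split_ifs with h
  · constructor
    · intro h1
      omega
    · intro h1
      omega
  · rcases lt_or_ge x 0 with hx | hx
    · rw [Int.sign_eq_neg_one_of_neg hx]
      constructor
      · intro h1
        have : (0 : ℤ) ≤ Nat.log 2 (x.natAbs / c) := by positivity
        omega
      · intro h1
        omega
    · have hx0 : 0 < x := by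
        rcases hx.lt_or_eq with h1 | h1
        · exact h1
        · rw [← h1] at h
          simp only [Int.natAbs_zero] at h
          omega
      rw [Int.sign_eq_one_of_pos hx0, one_mul]
      have hdiv : x.natAbs / c ≠ 0 := by
        have : 1 ≤ x.natAbs / c := (Nat.one_le_div_iff (by omega)).2 (by omega)
        omega
      have h1 : (v : ℤ) ≤ 1 + ((Nat.log 2 (x.natAbs / c) : ℕ) : ℤ) ↔ v - 1 ≤ Nat.log 2 (x.natAbs / c) := by
        omega
      rw [h1, Nat.le_log_iff_pow_le (by norm_num) hdiv, Nat.le_div_iff_mul_le (by omega)]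
      have h2 : ((2 ^ (v - 1) * c : ℕ) : ℤ) = (c : ℤ) * 2 ^ (v - 1) := by push_cast; ring
      rw [← h2]
      omega

theorem idx_mono (hc : 1 ≤ c) {x y : ℤ} (hxy : x ≤ y) : idx c x ≤ idx c y := by
  rcases le_or_gt (idx c x) 0 with h | h
  · rcases lt_or_ge (idx c y) 0 with h1 | h1
    · obtain ⟨w, hw⟩ : ∃ w : ℕ, (w : ℤ) = -idx c y := ⟨(-idx c y).toNat, by omega⟩
      have h2 : (w : ℤ) ≤ idx c (-y) := by rw [idx_neg]; omega
      rw [le_idx hc (by omega)] at h2
      have h3 : (w : ℤ) ≤ idx c (-x) := by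
        rw [le_idx hc (by omega)]
        omega
      rw [idx_neg] at h3
      omega
    · omega
  · obtain ⟨w, hw⟩ : ∃ w : ℕ, (w : ℤ) = idx c x := ⟨(idx c x).toNat, by omega⟩
    have h2 : (w : ℤ) ≤ idx c x := hw.le
    rw [le_idx hc (by omega)] at h2
    have h3 : (w : ℤ) ≤ idx c y := by
      rw [le_idx hc (by omega)]
      omega
    omega

variable {d : ℤ}

theorem step_even (hc : 1 ≤ c) {x : ℤ} (hx : 1 ≤ idx c x) (hp : x % 2 = 0) :
    idx c (T 3 d x) = idx c x - 1 := by
  have h2 := two_mul_T_even (a := 3) (b := d) (x := x) (by omega)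
  obtain ⟨v, hv⟩ : ∃ v : ℕ, (v : ℤ) = idx c x := ⟨(idx c x).toNat, by omega⟩
  have hv1 : 1 ≤ v := by omega
  have h3 : (v : ℤ) ≤ idx c x := hv.le
  rw [le_idx hc hv1] at h3
  have h4 : ¬ ((v + 1 : ℕ) : ℤ) ≤ idx c x := by push_cast; omega
  rw [le_idx hc (by omega), Nat.add_sub_cancel] at h4
  have h5 : (2 : ℤ) ^ v = 2 * 2 ^ (v - 1) := by
    conv_lhs => rw [show v = (v - 1) + 1 by omega, pow_succ]
    ring
  have h6 : ¬ (v : ℤ) ≤ idx c (T 3 d x) := by
    rw [le_idx hc hv1]
    rw [h5] at h4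
    have : (c : ℤ) * (2 * 2 ^ (v - 1)) = 2 * (c * 2 ^ (v - 1)) := by ring
    omega
  have h7 : (v : ℤ) - 1 ≤ idx c (T 3 d x) := by
    rcases Nat.eq_or_lt_of_le hv1 with h8 | h8
    · have h9 : 0 ≤ T 3 d x := by
        have : (0 : ℤ) ≤ c * 2 ^ (v - 1) := by positivity
        omega
      have := idx_nonneg (c := c) h9
      omega
    · have h9 : ((v - 1 : ℕ) : ℤ) ≤ idx c (T 3 d x) := by
        rw [le_idx hc (by omega)]
        have h10 : (2 : ℤ) ^ (v - 1) = 2 * 2 ^ (v - 1 - 1) := by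
          conv_lhs => rw [show v - 1 = (v - 1 - 1) + 1 by omega, pow_succ]
          ring
        rw [h10] at h3
        have : (c : ℤ) * (2 * 2 ^ (v - 1 - 1)) = 2 * (c * 2 ^ (v - 1 - 1)) := by ring
        omega
      omega
  omega

theorem step_odd (hc : 1 ≤ c) (hd : d % 2 = 1) (hdc : |d| ≤ c) {x : ℤ} (hx : 1 ≤ idx c x) (hp : x % 2 = 1) :
    idx c x ≤ idx c (T 3 d x) ∧ idx c (T 3 d x) ≤ idx c x + 1 := by
  have h2 := two_mul_T_odd (a := 3) (b := d) (by norm_num) hd hp
  have hd1 := abs_le.1 hdc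
  obtain ⟨v, hv⟩ : ∃ v : ℕ, (v : ℤ) = idx c x := ⟨(idx c x).toNat, by omega⟩
  have hv1 : 1 ≤ v := by omega
  have h3 : (v : ℤ) ≤ idx c x := hv.le
  rw [le_idx hc hv1] at h3
  have h2v : (1 : ℤ) ≤ 2 ^ (v - 1) := one_le_pow₀ (by norm_num)
  have hcc : (c : ℤ) ≤ c * 2 ^ (v - 1) := le_mul_of_one_le_right (by omega) h2v
  constructor
  · apply idx_mono hc
    omega
  · have h4 : ¬ ((v + 1 : ℕ) : ℤ) ≤ idx c x := by push_cast; omega
    rw [le_idx hc (by omega), Nat.add_sub_cancel] at h4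
    have h6 : ¬ ((v + 2 : ℕ) : ℤ) ≤ idx c (T 3 d x) := by
      rw [le_idx hc (by omega)]
      have : v + 2 - 1 = v + 1 := by omega
      rw [this, pow_succ]
      have : (c : ℤ) * (2 ^ v * 2) = 2 * (c * 2 ^ v) := by ring
      omega
    push_cast at h6
    omega

theorem step_zero (hc : 1 ≤ c) (hd : d % 2 = 1) (hdc : |d| ≤ c) {x : ℤ} (hx : idx c x = 0) :
    |idx c (T 3 d x)| ≤ 1 := by
  have hd1 := abs_le.1 hdc
  have h1 : ¬ ((1 : ℕ) : ℤ) ≤ idx c x := by push_cast; omega
  rw [le_idx hc le_rfl] at h1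
  have h2 : ¬ ((1 : ℕ) : ℤ) ≤ idx c (-x) := by rw [idx_neg]; push_cast; omega
  rw [le_idx hc le_rfl] at h2
  norm_num at h1 h2
  have h3 : -(2 * c) < T 3 d x ∧ T 3 d x < 2 * c := by
    rcases Int.emod_two_eq_zero_or_one x with hp | hp
    · have := two_mul_T_even (a := 3) (b := d) (x := x) (by omega)
      omega
    · have := two_mul_T_odd (a := 3) (b := d) (by norm_num) hd hp
      omega
  have h4 : ¬ ((2 : ℕ) : ℤ) ≤ idx c (T 3 d x) := by
    rw [le_idx hc (by norm_num)]
    norm_num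
    omega
  have h5 : ¬ ((2 : ℕ) : ℤ) ≤ idx c (-(T 3 d x)) := by
    rw [le_idx hc (by norm_num)]
    norm_num
    omega
  rw [idx_neg] at h5
  push_cast at h4 h5
  rw [abs_le]
  omega

theorem step_pos (hc : 1 ≤ c) (hd : d % 2 = 1) (hdc : |d| ≤ c) {x : ℤ} (hx : 1 ≤ idx c x) :
    |idx c (T 3 d x) - idx c x| ≤ 1 := by
  rw [abs_le]
  rcases Int.emod_two_eq_zero_or_one x with hp | hp
  · have := step_even (d := d) hc hx hp
    omega
  · have := step_odd hc hd hdc hx hp
    omega

theorem T_neg' (hd : d % 2 = 1) (x : ℤ) : T 3 (-d) (-x) = -(T 3 d x) := by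
  rcases Int.emod_two_eq_zero_or_one x with h | h
  · have h1 := two_mul_T_even (a := 3) (b := d) (x := x) (by omega)
    have h2 := two_mul_T_even (a := 3) (b := -d) (x := -x) (by omega)
    omega
  · have h1 := two_mul_T_odd (a := 3) (b := d) (by norm_num) hd h
    have h2 := two_mul_T_odd (a := 3) (b := -d) (by norm_num) (by omega) (x := -x) (by omega)
    omega

theorem step_all (hc : 1 ≤ c) (hd : d % 2 = 1) (hdc : |d| ≤ c) (x : ℤ) :
    |idx c (T 3 d x) - idx c x| ≤ 1 := by
  rcases lt_trichotomy (idx c x) 0 with h | h | h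
  · have h1 : 1 ≤ idx c (-x) := by rw [idx_neg]; omega
    have h2 := step_pos (d := -d) hc (by omega) (by rw [abs_neg]; exact hdc) h1
    rw [T_neg' hd, idx_neg, idx_neg] at h2
    rw [abs_le] at h2 ⊢
    omega
  · have := step_zero hc hd hdc h
    rw [h, sub_zero]
    exact this
  · exact step_pos hc hd hdc (by omega)

/-! ### single levels -/

section single

variable {t : ℕ → ℤ} {H : ℕ} {v : ℤ}

theorem even_below (hc : 1 ≤ c) (hd : d % 2 = 1) (hdc : |d| ≤ c) (ht : ∀ j, t (j + 1) = T 3 d (t j))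
    (hv : 2 ≤ v) (hev : ∀ j < H, (idx c (t j) = v - 1 ∨ idx c (t j) = v) → t j % 2 = 0) {s : ℕ} (hs : s < H)
    (hsv : idx c (t s) = v) (r : ℕ) : s + (r + 1) < H → idx c (t (s + (r + 1))) ≤ v - 1 := by
  induction r with
  | zero =>
    intro _
    rw [zero_add, ht, step_even hc (by omega) (hev s hs (Or.inr hsv))]
    omega
  | succ r ih =>
    intro hr
    have h1 := ih (by omega)
    rw [show s + (r + 1 + 1) = s + (r + 1) + 1 by omega, ht]
    rcases h1.lt_or_eq with h2 | h2
    · have := abs_le.1 (step_all hc hd hdc (t (s + (r + 1))))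
      omega
    · rw [step_even hc (by omega) (hev _ (by omega) (Or.inl h2))]
      omega

theorem odd_above (hc : 1 ≤ c) (hd : d % 2 = 1) (hdc : |d| ≤ c) (ht : ∀ j, t (j + 1) = T 3 d (t j))
    (hv : 1 ≤ v) (hod : ∀ j < H, idx c (t j) = v → t j % 2 = 1) {s : ℕ} (hsv : v ≤ idx c (t s)) (r : ℕ) :
    s + r < H → v ≤ idx c (t (s + r)) := by
  induction r with
  | zero => intro _; exact hsv
  | succ r ih =>
    intro hr
    have h1 := ih (by omega)
    rw [show s + (r + 1) = s + r + 1 by omega, ht]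
    rcases h1.lt_or_eq with h2 | h2
    · have := abs_le.1 (step_all hc hd hdc (t (s + r)))
      omega
    · have := step_odd hc hd hdc (x := t (s + r)) (by omega) (hod _ (by omega) h2.symm)
      omega

theorem leave_pos (hc : 1 ≤ c) (hd : d % 2 = 1) (hdc : |d| ≤ c) (ht : ∀ j, t (j + 1) = T 3 d (t j))
    (hv : 2 ≤ v) (hp : ∀ j < H, ∀ j' < H, |idx c (t j) - v| ≤ 1 → |idx c (t j') - v| ≤ 1 →
      t j % 2 = t j' % 2) {s s' : ℕ} (hs : s + 1 < H) (hs' : s' + 1 < H) (h1 : idx c (t s) = v)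
    (h1' : idx c (t s') = v) (h2 : idx c (t (s + 1)) ≠ v) (h2' : idx c (t (s' + 1)) ≠ v) : s = s' := by
  have key : ∀ s s' : ℕ, s < s' → s' + 1 < H → idx c (t s) = v → idx c (t s') = v →
      idx c (t (s + 1)) ≠ v → False := by
    intro s s' hlt hs' h1 h1' h2
    rcases Int.emod_two_eq_zero_or_one (t s) with hpar | hpar
    · have h3 := even_below hc hd hdc ht hv (H := H) (by
        intro j hj h
        rw [hp j hj s (by omega) (by rcases h with h | h <;> rw [h] <;> norm_num) (by rw [h1]; norm_num)]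
        exact hpar) (s := s) (by omega) h1 (s' - s - 1) (by omega)
      rw [show s + (s' - s - 1 + 1) = s' by omega] at h3
      omega
    · have hod : ∀ u, v ≤ u → u ≤ v + 1 → ∀ j < H, idx c (t j) = u → t j % 2 = 1 := by
        intro u hu1 hu2 j hj h
        rw [hp j hj s (by omega) (by rw [h, abs_le]; omega) (by rw [h1]; norm_num)]
        exact hpar
      have h3 := odd_above hc hd hdc ht (v := v) (by omega) (hod v le_rfl (by omega)) (s := s)
        (by omega) 1 (by omega)
      have h4 := odd_above hc hd hdc ht (v := v + 1) (by omega) (hod (v + 1) (by omega) le_rfl) (s := s + 1)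
        (by omega) (s' - (s + 1)) (by omega)
      rw [show s + 1 + (s' - (s + 1)) = s' by omega] at h4
      omega
  rcases lt_trichotomy s s' with h | h | h
  · exact absurd (key s s' h hs' h1 h1' h2) id
  · exact h
  · exact absurd (key s' s h hs h1' h1 h2') id

theorem enter_pos (hc : 1 ≤ c) (hd : d % 2 = 1) (hdc : |d| ≤ c) (ht : ∀ j, t (j + 1) = T 3 d (t j))
    (hv : 2 ≤ v) (hp : ∀ j < H, ∀ j' < H, |idx c (t j) - v| ≤ 1 → |idx c (t j') - v| ≤ 1 →
      t j % 2 = t j' % 2) {s s' : ℕ} (hs : s + 1 < H) (hs' : s' + 1 < H) (h1 : idx c (t (s + 1)) = v)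
    (h1' : idx c (t (s' + 1)) = v) (h2 : idx c (t s) ≠ v) (h2' : idx c (t s') ≠ v) : s = s' := by
  have key : ∀ s s' : ℕ, s < s' → s' + 1 < H → idx c (t (s + 1)) = v → idx c (t (s' + 1)) = v →
      idx c (t s') ≠ v → False := by
    intro s s' hlt hs' h1 h1' h2
    rcases Int.emod_two_eq_zero_or_one (t (s + 1)) with hpar | hpar
    · have h3 := even_below hc hd hdc ht hv (H := H) (by
        intro j hj h
        rw [hp j hj (s + 1) (by omega) (by rcases h with h | h <;> rw [h] <;> norm_num)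
          (by rw [h1]; norm_num)]
        exact hpar) (s := s + 1) (by omega) h1 (s' + 1 - (s + 1) - 1) (by omega)
      rw [show s + 1 + (s' + 1 - (s + 1) - 1 + 1) = s' + 1 by omega] at h3
      omega
    · have hod : ∀ u, v ≤ u → u ≤ v + 1 → ∀ j < H, idx c (t j) = u → t j % 2 = 1 := by
        intro u hu1 hu2 j hj h
        rw [hp j hj (s + 1) (by omega) (by rw [h, abs_le]; omega) (by rw [h1]; norm_num)]
        exact hpar
      have h3 := odd_above hc hd hdc ht (v := v) (by omega) (hod v le_rfl (by omega)) (s := s + 1)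
        (by omega) (s' - (s + 1)) (by omega)
      rw [show s + 1 + (s' - (s + 1)) = s' by omega] at h3
      have h4 := odd_above hc hd hdc ht (v := v + 1) (by omega) (hod (v + 1) (by omega) le_rfl) (s := s')
        (by omega) 1 (by omega)
      omega
  rcases lt_trichotomy s s' with h | h | h
  · exact absurd (key s s' h hs' h1 h1' h2') id
  · exact h
  · exact absurd (key s' s h hs h1' h1 h2) id

end single

end Pool.Agent.V5helper2.FC
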