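import Mathlib
import Pool.Agent.V5helper2.PC.Level

set_option autoImplicit false

/-!
The number of the parity words of the elements of a dyadic interval.
-/

namespace Pool.Agent.V5helper2.FC

open Finset Pool.Agent.H944.BX Pool.Agent.V5helper2.PC

/-- the number of the values of a function on a sorted list -/
theorem image_card {β : Type*} [DecidableEq β] (φ : ℤ → β) (Y : Finset ℤ)
    [hdec : ∀ Y : Finset ℤ, DecidablePred fun y => ∃ y' ∈ Y, Adj Y (y, y') ∧ φ y ≠ φ y'] :
    (Y.image φ).card ≤ 1 + (Y.filter fun y => ∃ y' ∈ Y, Adj Y (y, y') ∧ φ y ≠ φ y').card := by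
  refine Finset.induction_on_max Y ?_ ?_
  · simp
  · intro m Y hm ih
    rcases Y.eq_empty_or_nonempty with h | h
    · subst h
      simp only [insert_empty_eq, image_singleton, card_singleton]
      omega
    · obtain ⟨m0, hm0⟩ : ∃ m0, m0 = Y.max' h := ⟨_, rfl⟩
      have hm0Y : m0 ∈ Y := by rw [hm0]; exact max'_mem _ _
      have hmax : ∀ y ∈ Y, y ≤ m0 := by rw [hm0]; exact fun y hy => le_max' _ _ hy
      have hmY : m ∉ Y := fun h' => lt_irrefl _ (hm m h')
      set F := Y.filter fun y => ∃ y' ∈ Y, Adj Y (y, y') ∧ φ y ≠ φ y' with hF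
      set F' := (insert m Y).filter fun y => ∃ y' ∈ insert m Y, Adj (insert m Y) (y, y') ∧ φ y ≠ φ y' with hF'
      have hsub : F ⊆ F' := by
        intro y hy
        rw [hF, mem_filter] at hy
        obtain ⟨hy, y', hy', hadj, hne⟩ := hy
        rw [hF', mem_filter]
        refine ⟨mem_insert_of_mem hy, y', mem_insert_of_mem hy', ⟨hadj.1, ?_⟩, hne⟩
        intro z hz hcon
        rw [mem_insert] at hz
        rcases hz with rfl | hz
        · have := hm y' hy'
          simp only at hcon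
          omega
        · exact hadj.2 z hz hcon
      rw [image_insert]
      by_cases heq : φ m0 = φ m
      · have h1 : insert (φ m) (Y.image φ) = Y.image φ := by
          rw [insert_eq_of_mem]
          rw [mem_image]
          exact ⟨m0, hm0Y, heq⟩
        rw [h1]
        exact ih.trans (add_le_add_right (card_le_card hsub) _)
      · have h1 : (insert (φ m) (Y.image φ)).card ≤ (Y.image φ).card + 1 := card_insert_le _ _
        have h2 : insert m0 F ⊆ F' := by
          intro y hy
          rw [mem_insert] at hy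
          rcases hy with rfl | hy
          · rw [hF', mem_filter]
            refine ⟨mem_insert_of_mem hm0Y, m, mem_insert_self _ _, ⟨hm _ hm0Y, ?_⟩, heq⟩
            intro z hz hcon
            rw [mem_insert] at hz
            simp only at hcon
            rcases hz with rfl | hz
            · omega
            · have := hmax z hz
              omega
          · exact hsub hy
        have h3 : m0 ∉ F := by
          rw [hF, mem_filter]
          rintro ⟨-, y', hy', hadj, -⟩
          have h4 := hmax y' hy'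
          have h5 := hadj.1
          simp only at h5
          omega
        have h4 := card_le_card h2
        rw [card_insert_of_notMem h3] at h4
        omega

variable {d : ℤ}

/-- the basic estimate -/
theorem est (hd : d % 2 = 1) {X : ℤ} {N D i : ℕ} (hD : 1 ≤ D) (hX : 8 * (N * D * |d|) ≤ X) (hi : i < N)
    {y y' : ℤ} (hy1 : X ≤ y) (hy2 : y < 2 * X) (hlow : ∀ t < N, X ≤ D * (T 3 d)^[t] y)
    (hw : word 3 d y i = word 3 d y' i) {p : ℤ × ℤ} (hp : p.1 < p.2) (h1 : (T 3 d)^[i] y ≤ p.1)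
    (h2 : p.2 ≤ (T 3 d)^[i] y') :
    3 ^ ((word 3 d y i).count true) * (y - 2 * (i * D * |d|)) ≤ 2 ^ i * p.1 ∧
      2 ^ i * p.1 < 3 ^ ((word 3 d y i).count true) * (y' + 2 * (i * D * |d|)) := by
  have hb1 : 1 ≤ |d| := Int.one_le_abs (by rintro rfl; norm_num at hd)
  have hN : (1 : ℤ) ≤ N := by omega
  have hD' : (1 : ℤ) ≤ D := by exact_mod_cast hD
  have hNDd : (1 : ℤ) ≤ N * D * |d| := by
    have : (1 : ℤ) ≤ N * D := by nlinarith
    nlinarith
  have hX0 : 0 < X := by omega
  obtain ⟨L, hL⟩ : ∃ L, L = X / D := ⟨_, rfl⟩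
  have hL1 : N * |d| ≤ L := by
    rw [hL, Int.le_ediv_iff_mul_le (by omega)]
    nlinarith
  have hLD : D * L ≤ X := by
    rw [hL]
    exact Int.mul_ediv_self_le (by omega)
  have hLD' : X < D * (L + 1) := by
    have := Int.lt_mul_ediv_self_add (x := X) (k := (D : ℤ)) (by omega)
    rw [hL]
    linarith
  have hNd : (1 : ℤ) ≤ N * |d| := by nlinarith
  have hL0 : 0 < L := by omega
  have hLt : ∀ t < i, L ≤ (T 3 d)^[t] y := by
    intro t ht
    have h3 := hlow t (by omega)
    have h4 : (D : ℤ) * L ≤ D * (T 3 d)^[t] y := hLD.trans h3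
    exact le_of_mul_le_mul_left h4 (by omega)
  have hLy : L ≤ y := by
    have : L ≤ D * L := by nlinarith
    omega
  set k := (word 3 d y i).count true with hk
  have e1 := iter_eq (a := 3) (b := d) (by norm_num) hd y i
  have e2 := iter_eq (a := 3) (b := d) (by norm_num) hd y' i
  rw [← hw] at e2
  rw [← hk] at e1 e2
  have hc0 : 0 ≤ cst 3 (word 3 d y i) := cst_nonneg (by norm_num) _
  have hs := cst_small (a := 3) (b := d) (by norm_num) (by norm_num) hd hL0 i (by
    have : (i : ℤ) ≤ N := by omega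
    nlinarith) hLt hLy
  rw [← hk] at hs
  set cc := cst 3 (word 3 d y i) with hcc
  have h3k : (0 : ℤ) < 3 ^ k := by positivity
  have h3 : cc ≤ 2 * (i * D) * 3 ^ k := by
    have h4 : y ≤ 4 * (D * L) := by
      have : (D : ℤ) * (L + 1) ≤ 2 * (D * L) := by nlinarith
      omega
    have h5 : (i : ℤ) * 3 ^ k * y ≤ i * 3 ^ k * (4 * (D * L)) :=
      mul_le_mul_of_nonneg_left h4 (by positivity)
    have h6 : 2 * L * cc ≤ 2 * L * (2 * (i * D) * 3 ^ k) := by
      calc 2 * L * cc ≤ i * 3 ^ k * (4 * (D * L)) := hs.trans h5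
        _ = 2 * L * (2 * (i * D) * 3 ^ k) := by ring
    exact le_of_mul_le_mul_left h6 (by linarith)
  have h7 : |d * cc| ≤ 3 ^ k * (2 * (i * D * |d|)) := by
    rw [abs_mul, abs_of_nonneg hc0]
    calc |d| * cc ≤ |d| * (2 * (i * D) * 3 ^ k) := mul_le_mul_of_nonneg_left h3 (abs_nonneg d)
      _ = 3 ^ k * (2 * (i * D * |d|)) := by ring
  obtain ⟨h8, h9⟩ := abs_le.1 h7
  have h2i : (0 : ℤ) < 2 ^ i := by positivity
  constructor
  · have := mul_le_mul_of_nonneg_left h1 h2i.le
    rw [e1] at this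
    linarith
  · have h10 : p.1 < (T 3 d)^[i] y' := by omega
    have := mul_lt_mul_of_pos_left h10 h2i
    rw [e2] at this
    linarith

/-- **The number of the words.** -/
theorem words_card (hd : d % 2 = 1) {S Y : Finset ℤ} {X : ℤ} {N D : ℕ} (hN : 1 ≤ N) (hD : 1 ≤ D)
    (hX : 8 * (N * D * |d|) ≤ X) (hY : ∀ y ∈ Y, X ≤ y ∧ y < 2 * X)
    (hYS : ∀ y ∈ Y, ∀ t < N, (T 3 d)^[t] y ∈ S) (hlow : ∀ y ∈ Y, ∀ t < N, X ≤ D * (T 3 d)^[t] y) :
    (Y.image fun y => word 3 d y N).card ≤ 1 + (chg S).card * (2 * N +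
      (Nat.log 2 (4 * (N * D * d.natAbs)) + 1) *
        (1 + 4 * ((Nat.log 2 (4 * (N * D * d.natAbs)) + 1) * D * d.natAbs))) := by
  classical
  have hb1 : 1 ≤ |d| := Int.one_le_abs (by rintro rfl; norm_num at hd)
  have hbn : (d.natAbs : ℤ) = |d| := by rw [Int.abs_eq_natAbs]
  set B := d.natAbs with hB
  rw [← hbn] at hX
  have hB1 : 1 ≤ B := by omega
  set E := 4 * (N * D * B) with hE
  have hE1 : 1 ≤ E := by
    have : 1 ≤ N * D * B := Nat.one_le_iff_ne_zero.2 (by positivity)
    omega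
  set I0 := Nat.log 2 E + 1 with hI0
  set A := (chg S).card with hA
  have hNDB : (1 : ℤ) ≤ N * D * B := by
    have : 1 ≤ N * D * B := Nat.one_le_iff_ne_zero.2 (by positivity)
    exact_mod_cast this
  have hX0 : 0 < X := by omega
  refine (image_card (fun y => word 3 d y N) Y).trans (add_le_add_right ?_ 1)
  set V := Y.filter fun y => ∃ y' ∈ Y, Adj Y (y, y') ∧ word 3 d y N ≠ word 3 d y' N with hV
  set Q : ℕ × (ℤ × ℤ) → Finset ℤ := fun q => Y.filter fun y => ∃ y' ∈ Y, Adj Y (y, y') ∧
    word 3 d y q.1 = word 3 d y' q.1 ∧ (T 3 d)^[q.1] y ≤ q.2.1 ∧ q.2.2 ≤ (T 3 d)^[q.1] y' with hQ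
  set QL : ℕ × (ℤ × ℤ) → Finset ℤ := fun q => Y.filter fun y => ∃ y' ∈ Y, Adj Y (y, y') ∧
    word 3 d y q.1 = word 3 d y' q.1 ∧ (T 3 d)^[q.1] y ≤ q.2.1 ∧ q.2.2 ≤ (T 3 d)^[q.1] y' ∧
    (E : ℤ) ≤ y' - y with hQL
  have hcover : V ⊆ ((range N ×ˢ chg S).biUnion QL) ∪ ((range I0 ×ˢ chg S).biUnion Q) ∩ V := by
    intro y hyV
    obtain ⟨hyY, y', hy'Y, hadj, hne⟩ := mem_filter.1 hyV
    have hlt : y < y' := hadj.1
    have hsep : ∃ i, i < N ∧ (T 3 d)^[i] y % 2 ≠ (T 3 d)^[i] y' % 2 := by
      by_contra hcon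
      push Not at hcon
      exact hne (word_congr hcon)
    obtain ⟨hi1, hi2⟩ := Nat.find_spec hsep
    set i := Nat.find hsep with hi
    have hlowi : ∀ t < i, (T 3 d)^[t] y % 2 = (T 3 d)^[t] y' % 2 := by
      intro t ht
      by_contra hcon
      exact Nat.find_min hsep ht ⟨by omega, hcon⟩
    have hw := word_congr hlowi
    have hlt' : (T 3 d)^[i] y < (T 3 d)^[i] y' := by
      have h1 := diff_eq (a := 3) (b := d) (by norm_num) hd hw
      have h2 : 0 < 3 ^ ((word 3 d y i).count true) * (y' - y) := mul_pos (by positivity) (by omega)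
      rw [← h1] at h2
      have := (mul_pos_iff_of_pos_left (show (0 : ℤ) < 2 ^ i by positivity)).1 h2
      omega
    obtain ⟨p, hp, hp1, hp2⟩ := exists_chg' (hYS y hyY i hi1) (hYS y' hy'Y i hi1) hlt' hi2
    rw [mem_union]
    rcases lt_or_ge (y' - y) (E : ℤ) with hgap | hgap
    · right
      rw [mem_inter, mem_biUnion]
      refine ⟨⟨(i, p), ?_, ?_⟩, hyV⟩
      · rw [mem_product]
        refine ⟨mem_range.2 ?_, hp⟩
        show i < I0
        have h1 := dvd_diff (a := 3) (b := d) (by norm_num) hd hw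
        have h2 := Int.le_of_dvd (by omega) h1
        have h3 : (2 : ℤ) ^ i < E := by omega
        have h4 : 2 ^ i < E := by exact_mod_cast h3
        have h5 : i ≤ Nat.log 2 E := by
          rw [Nat.le_log_iff_pow_le (by norm_num) (by omega)]
          exact h4.le
        omega
      · rw [hQ, mem_filter]
        exact ⟨hyY, y', hy'Y, hadj, hw, hp1, hp2⟩
    · left
      rw [mem_biUnion]
      refine ⟨(i, p), ?_, ?_⟩
      · rw [mem_product]
        exact ⟨mem_range.2 hi1, hp⟩
      · rw [hQL, mem_filter]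
        exact ⟨hyY, y', hy'Y, hadj, hw, hp1, hp2, hgap⟩
  -- the fibres
  have hfib : ∀ i < N, ∀ p ∈ chg S, (Q (i, p)).Nonempty → ∃ m0 m1 : ℤ, m0 ∈ Q (i, p) ∧
      ∀ y ∈ Q (i, p), y = m0 ∨ (m1 ≤ y ∧ y < m1 + 4 * ((i : ℤ) * D * B)) := by
    intro i hi p hp hne
    have hp12 := (mem_chg.1 hp).2.2.1
    set m0 := (Q (i, p)).min' hne with hm0
    have hm0Q : m0 ∈ Q (i, p) := min'_mem _ hne
    have hR : 4 * (2 * ((i : ℤ) * D * B)) ≤ X := by
      have h1 : (i : ℤ) * D * B ≤ N * D * B := by
        apply mul_le_mul_of_nonneg_right _ (by positivity)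
        apply mul_le_mul_of_nonneg_right _ (by positivity)
        omega
      linarith
    have hest : ∀ y ∈ Q (i, p), ∃ y' ∈ Y, Adj Y (y, y') ∧
        3 ^ ((word 3 d y i).count true) * (y - 2 * ((i : ℤ) * D * B)) ≤ 2 ^ i * p.1 ∧
        2 ^ i * p.1 < 3 ^ ((word 3 d y i).count true) * (y' + 2 * ((i : ℤ) * D * B)) := by
      intro y hy
      rw [hQ, mem_filter] at hy
      obtain ⟨hyY, y', hy'Y, hadj, hw, h1, h2⟩ := hy
      have := est hd hD (by rw [← hbn]; exact hX) hi (hY y hyY).1 (hY y hyY).2 (hlow y hyY) hw hp12 h1 h2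
      rw [← hbn] at this
      exact ⟨y', hy'Y, hadj, this⟩
    -- the number of the odd steps is the same
    have hk : ∀ y ∈ Q (i, p), ∀ z ∈ Q (i, p),
        (word 3 d y i).count true ≤ (word 3 d z i).count true := by
      intro y hy z hz
      obtain ⟨y', hy', -, h1, -⟩ := hest y hy
      obtain ⟨z', hz', -, -, h2⟩ := hest z hz
      set k1 := (word 3 d y i).count true
      set k2 := (word 3 d z i).count true
      have hyX := (hY y (mem_filter.1 hy).1).1
      have hzX := (hY z' hz').2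
      have h31 : (0 : ℤ) < 3 ^ k1 := by positivity
      have h32 : (0 : ℤ) < 3 ^ k2 := by positivity
      have h3 : (3 : ℤ) ^ k1 * (3 * X) ≤ 3 ^ k1 * (4 * (y - 2 * ((i : ℤ) * D * B))) :=
        mul_le_mul_of_nonneg_left (by linarith) h31.le
      have h4 : (3 : ℤ) ^ k2 * (4 * (z' + 2 * ((i : ℤ) * D * B))) ≤ 3 ^ k2 * (9 * X) :=
        mul_le_mul_of_nonneg_left (by linarith) h32.le
      have h5 : (3 : ℤ) ^ k1 * (3 * X) < 3 ^ (k2 + 1) * (3 * X) := by
        rw [pow_succ]
        linarith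
      have h6 := lt_of_mul_lt_mul_right h5 (by linarith)
      have h7 : k1 < k2 + 1 := (pow_lt_pow_iff_right₀ (by norm_num : (1 : ℤ) < 3)).1 h6
      omega
    obtain ⟨m1, hm1Y, hadj, -, hm1⟩ := hest m0 hm0Q
    refine ⟨m0, m1, hm0Q, fun y hy => ?_⟩
    by_cases hym : y = m0
    · exact Or.inl hym
    · right
      have h1 : m0 < y := lt_of_le_of_ne (min'_le _ _ hy) (Ne.symm hym)
      have hyY := (mem_filter.1 hy).1
      constructor
      · by_contra hcon
        push Not at hcon
        exact hadj.2 y hyY ⟨h1, hcon⟩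
      · obtain ⟨y', hy', -, h2, -⟩ := hest y hy
        have h3 : (word 3 d y i).count true = (word 3 d m0 i).count true :=
          le_antisymm (hk y hy m0 hm0Q) (hk m0 hm0Q y hy)
        rw [h3] at h2
        have h4 := lt_of_mul_lt_mul_left (h2.trans_lt hm1) (by positivity)
        linarith
  have hQLsub : ∀ q, QL q ⊆ Q q := by
    intro q y hy
    rw [hQL, mem_filter] at hy
    obtain ⟨h1, y', h2, h3, h4, h5, h6, -⟩ := hy
    rw [hQ, mem_filter]
    exact ⟨h1, y', h2, h3, h4, h5, h6⟩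
  have hQLc : ∀ q ∈ range N ×ˢ chg S, (QL q).card ≤ 2 := by
    rintro ⟨i, p⟩ hq
    rw [mem_product] at hq
    obtain ⟨hi, hp⟩ := hq
    rw [mem_range] at hi
    simp only at hi hp
    rcases (QL (i, p)).eq_empty_or_nonempty with h | h
    · rw [h]; simp
    obtain ⟨m0, m1, hm0, hfi⟩ := hfib i hi p hp (h.mono (hQLsub _))
    have h1 : ((QL (i, p)).erase m0).card ≤ 1 := by
      rw [card_le_one]
      have key : ∀ y ∈ (QL (i, p)).erase m0, ∀ z ∈ (QL (i, p)).erase m0, ¬ y < z := by
        intro y hy z hz hlt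
        rw [mem_erase] at hy hz
        have hyQ := hy.2
        rw [hQL, mem_filter] at hyQ
        obtain ⟨hyY, y', hy'Y, hadj, -, -, -, hgap⟩ := hyQ
        rcases hfi y (hQLsub _ hy.2) with h2 | ⟨h2, -⟩
        · exact hy.1 h2
        rcases hfi z (hQLsub _ hz.2) with h3 | ⟨-, h3⟩
        · exact hz.1 h3
        have hzY : z ∈ Y := (mem_filter.1 hz.2).1
        have h4 : y' ≤ z := by
          by_contra hcon
          push Not at hcon
          exact hadj.2 z hzY ⟨hlt, hcon⟩
        have h5 : (i : ℤ) * D * B ≤ N * D * B := by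
          apply mul_le_mul_of_nonneg_right _ (by positivity)
          apply mul_le_mul_of_nonneg_right _ (by positivity)
          omega
        have h6 : (E : ℤ) = 4 * (N * D * B) := by rw [hE]; push_cast; ring
        omega
      intro y hy z hz
      rcases lt_trichotomy y z with h2 | h2 | h2
      · exact absurd h2 (key y hy z hz)
      · exact h2
      · exact absurd h2 (key z hz y hy)
    have h2 := card_le_card_sdiff_add_card (s := QL (i, p)) (t := {m0})
    rw [card_singleton, sdiff_singleton_eq_erase] at h2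
    omega
  have hQc : ∀ q ∈ range I0 ×ˢ chg S, (Q q ∩ V).card ≤ 1 + 4 * (I0 * D * B) := by
    rintro ⟨i, p⟩ hq
    rw [mem_product] at hq
    obtain ⟨hi, hp⟩ := hq
    rw [mem_range] at hi
    simp only at hi hp
    rcases lt_or_ge i N with hiN | hiN
    · rcases (Q (i, p)).eq_empty_or_nonempty with h | h
      · rw [h]; simp
      obtain ⟨m0, m1, hm0, hfi⟩ := hfib i hiN p hp h
      have h1 : Q (i, p) ∩ V ⊆ insert m0 (Finset.Ico m1 (m1 + 4 * ((i : ℤ) * D * B))) := by
        intro y hy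
        rw [mem_insert, Finset.mem_Ico]
        exact hfi y (mem_inter.1 hy).1
      refine (card_le_card h1).trans ((card_insert_le _ _).trans ?_)
      rw [Int.card_Ico]
      have h2 : (m1 + 4 * ((i : ℤ) * D * B) - m1).toNat = 4 * (i * D * B) := by
        have : m1 + 4 * ((i : ℤ) * D * B) - m1 = ((4 * (i * D * B) : ℕ) : ℤ) := by push_cast; ring
        rw [this, Int.toNat_natCast]
      rw [h2]
      have h3 : i * D * B ≤ I0 * D * B := Nat.mul_le_mul_right _ (Nat.mul_le_mul_right _ hi.le)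
      omega
    · -- then the words of length `N` agree, contradiction
      have h1 : Q (i, p) ∩ V = ∅ := by
        rw [eq_empty_iff_forall_notMem]
        intro y hy
        rw [mem_inter] at hy
        obtain ⟨hy1, hy2⟩ := hy
        rw [hQ, mem_filter] at hy1
        rw [hV, mem_filter] at hy2
        obtain ⟨hyY, y', hy'Y, hadj, hw, -⟩ := hy1
        obtain ⟨-, y'', hy''Y, hadj', hne⟩ := hy2
        have he : y' = y'' := by
          rcases lt_trichotomy y' y'' with h | h | h
          · exact absurd ⟨hadj.1, h⟩ (hadj'.2 y' hy'Y)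
          · exact h
          · exact absurd ⟨hadj'.1, h⟩ (hadj.2 y'' hy''Y)
        apply hne
        rw [← he]
        apply word_congr
        intro t ht
        have h2 : (word 3 d y i)[t]? = (word 3 d y' i)[t]? := by rw [hw]
        unfold word at h2
        rw [List.getElem?_map, List.getElem?_map, List.getElem?_range (by omega)] at h2
        simp only [Option.map_some, Option.some.injEq, decide_eq_decide] at h2
        omega
      rw [h1]
      simp
  refine (card_le_card hcover).trans ((card_union_le _ _).trans ?_)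
  have h1 : ((range N ×ˢ chg S).biUnion QL).card ≤ N * A * 2 := by
    refine card_biUnion_le.trans ((sum_le_sum hQLc).trans ?_)
    rw [sum_const, card_product, card_range, smul_eq_mul]
  have h2 : ((range I0 ×ˢ chg S).biUnion Q ∩ V).card ≤ I0 * A * (1 + 4 * (I0 * D * B)) := by
    rw [biUnion_inter]
    refine card_biUnion_le.trans ((sum_le_sum hQc).trans ?_)
    rw [sum_const, card_product, card_range, smul_eq_mul]
  have h3 : A * (2 * N + I0 * (1 + 4 * (I0 * D * B))) = N * A * 2 + I0 * A * (1 + 4 * (I0 * D * B)) := by ring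
  rw [h3]
  exact add_le_add h1 h2

/-- a linear bound -/
theorem log_sq (E : ℕ) (hE : 1 ≤ E) : (Nat.log 2 E + 1) ^ 2 ≤ 4 * E := by
  have h1 : ∀ l : ℕ, (l + 1) ^ 2 ≤ 4 * 2 ^ l := by
    intro l
    induction l with
    | zero => norm_num
    | succ l ih =>
      rcases Nat.lt_or_ge l 2 with h | h
      · interval_cases l <;> norm_num
      · calc (l + 1 + 1) ^ 2 ≤ 2 * (l + 1) ^ 2 := by nlinarith
          _ ≤ 2 * (4 * 2 ^ l) := Nat.mul_le_mul_left _ ih
          _ = 4 * 2 ^ (l + 1) := by rw [pow_succ]; ring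
  exact (h1 _).trans (Nat.mul_le_mul_left _ (Nat.pow_log_le_self 2 (by omega)))

/-- **The number of the words, linear form.** -/
theorem words_lin (hd : d % 2 = 1) {S Y : Finset ℤ} {X : ℤ} {N D : ℕ} (hN : 1 ≤ N) (hD : 1 ≤ D)
    (hX : 8 * (N * D * |d|) ≤ X) (hY : ∀ y ∈ Y, X ≤ y ∧ y < 2 * X)
    (hYS : ∀ y ∈ Y, ∀ t < N, (T 3 d)^[t] y ∈ S) (hlow : ∀ y ∈ Y, ∀ t < N, X ≤ D * (T 3 d)^[t] y) :
    (Y.image fun y => word 3 d y N).card ≤ 1 + (chg S).card * (N * (2 + 16 * (D * d.natAbs) +
      64 * (D * d.natAbs) ^ 2)) := by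
  refine (words_card hd hN hD hX hY hYS hlow).trans (add_le_add_right (Nat.mul_le_mul_left _ ?_) 1)
  set B := d.natAbs with hB
  have hb1 : 1 ≤ B := by
    have : d ≠ 0 := by rintro rfl; norm_num at hd
    omega
  have hE1 : 1 ≤ 4 * (N * D * B) := by
    have : 1 ≤ N * D * B := Nat.one_le_iff_ne_zero.2 (by positivity)
    omega
  have h1 := log_sq _ hE1
  set I0 := Nat.log 2 (4 * (N * D * B)) + 1 with hI0
  have h2 : I0 ≤ I0 ^ 2 := by
    have : 1 ≤ I0 := by omega
    nlinarith
  calc 2 * N + I0 * (1 + 4 * (I0 * D * B)) = 2 * N + I0 + 4 * (D * B) * I0 ^ 2 := by ring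
    _ ≤ 2 * N + 4 * (4 * (N * D * B)) + 4 * (D * B) * (4 * (4 * (N * D * B))) :=
        add_le_add (add_le_add le_rfl (h2.trans h1)) (Nat.mul_le_mul_left _ h1)
    _ = N * (2 + 16 * (D * B) + 64 * (D * B) ^ 2) := by ring

end Pool.Agent.V5helper2.FC
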