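import Mathlib
import Pool.Agent.V5helper2.PC.Cross
import Pool.Agent.V5helper2.FC.Idx
import Pool.Agent.V5helper2.FC.Pairs
import Pool.Agent.TH932.S2.F.Cyc

set_option autoImplicit false

/-!
Trajectories with few parity changes in their sorted list of terms have linear complexity.
-/

namespace Pool.Agent.V5helper2.FC

open Finset Pool.Agent.H944.BX Pool.Agent.V5helper2.PC Pool.Agent.TH932.Words Pool.Agent.TH932.S2.F

/-- the parity -/
def f (y : ℤ) : ZMod 2 := ((y : ℤ) : ZMod 2)

theorem f_eq {x y : ℤ} : f x = f y ↔ x % 2 = y % 2 := by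
  unfold f
  rw [ZMod.intCast_eq_intCast_iff']
  norm_num

/-- the first `H` terms -/
def fst (d x : ℤ) (H : ℕ) : Finset ℤ := (range H).image fun j => (T 3 d)^[j] x

theorem mem_fst {d x z : ℤ} {H : ℕ} : z ∈ fst d x H ↔ ∃ j < H, (T 3 d)^[j] x = z := by
  unfold fst
  rw [mem_image]
  constructor
  · rintro ⟨j, hj, rfl⟩
    exact ⟨j, mem_range.1 hj, rfl⟩
  · rintro ⟨j, hj, rfl⟩
    exact ⟨j, mem_range.2 hj, rfl⟩

/-- the levels which may be visited many times -/
theorem exists_mu (c : ℕ) (hc : 1 ≤ c) (S : Finset ℤ) : ∃ Mu : Finset ℤ, Mu.card ≤ 5 + 6 * (chg S).card ∧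
    0 ∈ Mu ∧ 1 ∈ Mu ∧ -1 ∈ Mu ∧
    ∀ v, v ∉ Mu → ∀ x ∈ S, ∀ z ∈ S, |idx c x - v| ≤ 1 → |idx c z - v| ≤ 1 → x % 2 = z % 2 := by
  classical
  set B := (chg S).image fun p => idx c p.1 with hB
  refine ⟨({0, 1, -1} : Finset ℤ) ∪ (B ∪ (B.image (fun v => v + 1) ∪ B.image (fun v => v - 1))),
    ?_, by simp, by simp, by simp, ?_⟩
  · have h1 : ({0, 1, -1} : Finset ℤ).card ≤ 3 := card_le_three
    have h2 : B.card ≤ (chg S).card := card_image_le
    have h3 : (B.image (fun v => v + 1)).card ≤ B.card := card_image_le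
    have h4 : (B.image (fun v => v - 1)).card ≤ B.card := card_image_le
    have h5 := card_union_le ({0, 1, -1} : Finset ℤ) (B ∪ (B.image (fun v => v + 1) ∪ B.image (fun v => v - 1)))
    have h6 := card_union_le B (B.image (fun v => v + 1) ∪ B.image (fun v => v - 1))
    have h7 := card_union_le (B.image (fun v => v + 1)) (B.image (fun v => v - 1))
    omega
  · intro v hv
    have key : ∀ x ∈ S, ∀ z ∈ S, |idx c x - v| ≤ 1 → |idx c z - v| ≤ 1 → x < z → x % 2 = z % 2 := by
      intro x hx z hz hxv hzv hxz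
      by_contra hne
      obtain ⟨p, hp, hp1, hp2⟩ := exists_chg' hx hz hxz hne
      have hp12 := (mem_chg.1 hp).2.2.1
      have h1 := idx_mono hc hp1
      have h2 := idx_mono hc (show p.1 ≤ z by omega)
      have h3 := abs_le.1 hxv
      have h4 := abs_le.1 hzv
      have hb : idx c p.1 ∈ B := by
        rw [hB, mem_image]
        exact ⟨p, hp, rfl⟩
      apply hv
      have h5 : idx c p.1 = v ∨ idx c p.1 = v - 1 ∨ idx c p.1 = v + 1 := by omega
      rcases h5 with h5 | h5 | h5
      · exact mem_union_right _ (mem_union_left _ (h5 ▸ hb))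
      · exact mem_union_right _ (mem_union_right _ (mem_union_left _
          (mem_image.2 ⟨idx c p.1, hb, by omega⟩)))
      · exact mem_union_right _ (mem_union_right _ (mem_union_right _
          (mem_image.2 ⟨idx c p.1, hb, by omega⟩)))
    intro x hx z hz hxv hzv
    rcases lt_trichotomy x z with h | h | h
    · exact key x hx z hz hxv hzv h
    · rw [h]
    · exact (key z hz x hx hzv hxv h).symm

variable {d : ℤ}

theorem iter_neg (hd : d % 2 = 1) (x : ℤ) (j : ℕ) : (T 3 (-d))^[j] (-x) = -((T 3 d)^[j] x) :=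
  T_neg_iter (a := 3) x (by norm_num) hd j

theorem word_neg (hd : d % 2 = 1) (x : ℤ) (N : ℕ) : word 3 (-d) (-x) N = word 3 d x N := by
  unfold word
  apply List.map_congr_left
  intro t _
  rw [iter_neg hd]
  congr 1
  apply propext
  omega

/-- the blocks at the starts of type A -/
theorem typeA (hd : d % 2 = 1) (x : ℤ) {H N M : ℕ} (hN : 1 ≤ N) {Mu : Finset ℤ} (hM : Mu.card ≤ M) :
    ((fun i => fac (wd f (T 3 d) x) N i) '' {j | j + N ≤ H ∧ ∀ t < N,
      idx d.natAbs ((T 3 d)^[j + t] x) ∈ Mu}).ncard ≤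
      32 * (N * 2 ^ M * d.natAbs) + 2 * (M * (1 + (chg (fst d x H)).card * (N * (2 +
        16 * (2 ^ M * d.natAbs) + 64 * (2 ^ M * d.natAbs) ^ 2)))) := by
  classical
  set c := d.natAbs with hc
  have hc1 : 1 ≤ c := by
    have : d ≠ 0 := by rintro rfl; norm_num at hd
    omega
  have hdc : |d| ≤ c := by rw [Int.abs_eq_natAbs]
  have hcd : (c : ℤ) = |d| := by rw [Int.abs_eq_natAbs]
  set S := fst d x H with hS
  set D := 2 ^ M with hD
  have hD1 : 1 ≤ D := Nat.one_le_two_pow
  set W := N * (2 + 16 * (D * c) + 64 * (D * c) ^ 2) with hW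
  set X0 := 16 * (N * D * c) with hX0
  have hNDc : 1 ≤ N * D * c := Nat.one_le_iff_ne_zero.2 (by positivity)
  have hstep : ∀ j, j + 1 < H → |idx c ((T 3 d)^[j + 1] x) - idx c ((T 3 d)^[j] x)| ≤ 1 := by
    intro j _
    rw [Function.iterate_succ_apply']
    exact step_all hc1 hd hdc _
  set J := (range (H + 1)).filter fun j => j + N ≤ H ∧ ∀ t < N, idx c ((T 3 d)^[j + t] x) ∈ Mu with hJ
  set Y := J.image fun j => (T 3 d)^[j] x with hY
  have hYm : ∀ y ∈ Y, ∃ j, j + N ≤ H ∧ (∀ t < N, idx c ((T 3 d)^[j + t] x) ∈ Mu) ∧ (T 3 d)^[j] x = y := by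
    intro y hy
    rw [hY, mem_image] at hy
    obtain ⟨j, hj, h1⟩ := hy
    rw [hJ, mem_filter] at hj
    exact ⟨j, hj.2.1, hj.2.2, h1⟩
  -- from words to factors
  have h1 : (fun i => fac (wd f (T 3 d) x) N i) '' {j | j + N ≤ H ∧ ∀ t < N,
      idx c ((T 3 d)^[j + t] x) ∈ Mu} ⊆
      (fun l : List Bool => fun k : Fin N => if l[(k : ℕ)]? = some true then (1 : ZMod 2) else 0) ''
        ((Y.image fun y => word 3 d y N : Finset (List Bool)) : Set (List Bool)) := by
    rintro _ ⟨j, ⟨hj1, hj2⟩, rfl⟩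
    refine ⟨word 3 d ((T 3 d)^[j] x) N, ?_, ?_⟩
    · rw [mem_coe, mem_image]
      refine ⟨(T 3 d)^[j] x, ?_, rfl⟩
      rw [hY, mem_image]
      refine ⟨j, ?_, rfl⟩
      rw [hJ, mem_filter, mem_range]
      exact ⟨by omega, hj1, hj2⟩
    · funext k
      have h2 : (word 3 d ((T 3 d)^[j] x) N)[(k : ℕ)]? =
          some (decide ((T 3 d)^[(k : ℕ)] ((T 3 d)^[j] x) % 2 = 1)) := by
        unfold word
        rw [List.getElem?_map, List.getElem?_range k.2]
        rfl
      simp only [h2, fac, wd]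
      rw [← Function.iterate_add_apply, show (k : ℕ) + j = j + k by omega]
      by_cases h3 : (T 3 d)^[j + (k : ℕ)] x % 2 = 1
      · rw [if_pos (by simp [h3])]
        have : f ((T 3 d)^[j + (k : ℕ)] x) = f 1 := f_eq.2 (by omega)
        rw [this]
        simp [f]
      · rw [if_neg (by simp [h3])]
        have : f ((T 3 d)^[j + (k : ℕ)] x) = f 0 := f_eq.2 (by omega)
        rw [this]
        simp [f]
  refine (Set.ncard_le_ncard h1 ((Set.toFinite _).image _)).trans ?_
  refine (Set.ncard_image_le (Set.toFinite _)).trans ?_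
  rw [Set.ncard_coe_finset]
  -- the three kinds of starts
  set Yp : ℤ → Finset ℤ := fun v => Y.filter fun y => (X0 : ℤ) ≤ y ∧ idx c y = v with hYp
  set Yn : ℤ → Finset ℤ := fun v => Y.filter fun y => (X0 : ℤ) ≤ -y ∧ idx c y = v with hYn
  have hsub : Y ⊆ (Y.filter fun y : ℤ => |y| < (X0 : ℤ)) ∪ (Mu.biUnion Yp ∪ Mu.biUnion Yn) := by
    intro y hy
    obtain ⟨j, hj1, hj2, hj3⟩ := hYm y hy
    have hv : idx c y ∈ Mu := by
      have := hj2 0 (by omega)
      rwa [add_zero, hj3] at this
    rw [mem_union, mem_filter, mem_union, mem_biUnion, mem_biUnion]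
    rcases lt_or_ge |y| (X0 : ℤ) with h | h
    · exact Or.inl ⟨hy, h⟩
    · right
      rcases le_total 0 y with h0 | h0
      · left
        refine ⟨idx c y, hv, ?_⟩
        rw [hYp, mem_filter]
        rw [abs_of_nonneg h0] at h
        exact ⟨hy, h, rfl⟩
      · right
        refine ⟨idx c y, hv, ?_⟩
        rw [hYn, mem_filter]
        rw [abs_of_nonpos h0] at h
        exact ⟨hy, h, rfl⟩
  have himg : (Y.image fun y => word 3 d y N) ⊆ ((Y.filter fun y : ℤ => |y| < (X0 : ℤ)).image fun y => word 3 d y N) ∪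
      (Mu.biUnion (fun v => (Yp v).image fun y => word 3 d y N) ∪
        Mu.biUnion (fun v => (Yn v).image fun y => word 3 d y N)) := by
    intro l hl
    rw [mem_image] at hl
    obtain ⟨y, hy, rfl⟩ := hl
    have h2 := hsub hy
    rw [mem_union, mem_union, mem_biUnion, mem_biUnion] at h2
    rw [mem_union, mem_union, mem_biUnion, mem_biUnion]
    rcases h2 with h2 | ⟨v, hv, h2⟩ | ⟨v, hv, h2⟩
    · exact Or.inl (mem_image_of_mem _ h2)
    · exact Or.inr (Or.inl ⟨v, hv, mem_image_of_mem _ h2⟩)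
    · exact Or.inr (Or.inr ⟨v, hv, mem_image_of_mem _ h2⟩)
  -- the words from a level
  have hpos : ∀ v ∈ Mu, ((Yp v).image fun y => word 3 d y N).card ≤ 1 + (chg S).card * W := by
    intro v hv
    rcases (Yp v).eq_empty_or_nonempty with h | ⟨y0, hy0⟩
    · rw [h]
      simp
    have hy0' := hy0
    rw [hYp, mem_filter] at hy0'
    obtain ⟨-, hy01, hy02⟩ := hy0'
    have hv1 : 1 ≤ v := by
      have h2 : ((1 : ℕ) : ℤ) ≤ idx c y0 := by
        rw [le_idx hc1 le_rfl]
        have : (c : ℤ) ≤ X0 := by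
          have : c ≤ X0 := by
            have : c ≤ N * D * c := Nat.le_mul_of_pos_left _ (by positivity)
            omega
          exact_mod_cast this
        simp only [le_refl, tsub_eq_zero_of_le, pow_zero, mul_one]
        omega
      push_cast at h2
      omega
    obtain ⟨u, hu⟩ : ∃ u : ℕ, (u : ℤ) = v := ⟨v.toNat, by omega⟩
    have hu1 : 1 ≤ u := by omega
    have hcu : ∀ y ∈ Yp v, (c : ℤ) * 2 ^ (u - 1) ≤ y ∧ y < 2 * ((c : ℤ) * 2 ^ (u - 1)) := by
      intro y hy
      rw [hYp, mem_filter] at hy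
      obtain ⟨-, hy1, hy2⟩ := hy
      have h3 : (u : ℤ) ≤ idx c y := by omega
      rw [le_idx hc1 hu1] at h3
      have h4 : ¬ ((u + 1 : ℕ) : ℤ) ≤ idx c y := by push_cast; omega
      rw [le_idx hc1 (by omega), Nat.add_sub_cancel] at h4
      have h5 : (2 : ℤ) ^ u = 2 * 2 ^ (u - 1) := by
        conv_lhs => rw [show u = (u - 1) + 1 by omega, pow_succ]
        ring
      rw [h5] at h4
      have : (c : ℤ) * (2 * 2 ^ (u - 1)) = 2 * (c * 2 ^ (u - 1)) := by ring
      exact ⟨h3, by omega⟩
    have hXX : 8 * ((N : ℤ) * D * |d|) ≤ c * 2 ^ (u - 1) := by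
      have h3 := (hcu y0 hy0).2
      have h4 : (X0 : ℤ) = 16 * (N * D * c) := by rw [hX0]; push_cast; ring
      rw [← hcd]
      omega
    have huM : M + 4 ≤ u := by
      have h3 : 8 * ((N : ℤ) * D * c) ≤ c * 2 ^ (u - 1) := by rw [hcd]; rw [hcd] at hXX; exact hXX
      have h4 : (8 : ℤ) * D ≤ 2 ^ (u - 1) := by
        have h5 : (c : ℤ) * (8 * D) ≤ c * 2 ^ (u - 1) := by
          refine le_trans ?_ h3
          have h6 : (1 : ℤ) ≤ N := by exact_mod_cast hN
          have h7 : (0 : ℤ) ≤ c * D := by positivity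
          nlinarith
        exact le_of_mul_le_mul_left h5 (by omega)
      have h5 : (2 : ℕ) ^ (M + 3) ≤ 2 ^ (u - 1) := by
        rw [pow_add, ← hD]
        have : ((8 * D : ℕ) : ℤ) ≤ ((2 ^ (u - 1) : ℕ) : ℤ) := by push_cast; exact h4
        have h6 : 8 * D ≤ 2 ^ (u - 1) := by exact_mod_cast this
        omega
      have := (Nat.pow_le_pow_iff_right (by norm_num : 1 < 2)).1 h5
      omega
    refine words_lin hd (S := S) (Y := Yp v) (X := (c : ℤ) * 2 ^ (u - 1)) hN hD1 hXX hcu ?_ ?_
    · intro y hy t ht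
      rw [hYp, mem_filter] at hy
      obtain ⟨j, hj1, hj2, hj3⟩ := hYm y hy.1
      rw [← hj3, ← Function.iterate_add_apply]
      exact mem_fst.2 ⟨t + j, by omega, rfl⟩
    · intro y hy t ht
      rw [hYp, mem_filter] at hy
      obtain ⟨hyY, hy1, hy2⟩ := hy
      obtain ⟨j, hj1, hj2, hj3⟩ := hYm y hyY
      have h3 := path_near (e := fun j => idx c ((T 3 d)^[j] x)) (H := H) hstep (Mu := Mu) (j := j) t (by omega)
        (fun s hs => hj2 s (by omega))
      rw [hj3, hy2] at h3
      have h4 : (T 3 d)^[j + t] x = (T 3 d)^[t] y := by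
        rw [← hj3, ← Function.iterate_add_apply, add_comm]
      rw [h4] at h3
      have h5 := abs_le.1 (show |idx c ((T 3 d)^[t] y) - v| ≤ M by
        have : (Mu.card : ℤ) ≤ M := by exact_mod_cast hM
        omega)
      have h6 : ((u - M : ℕ) : ℤ) ≤ idx c ((T 3 d)^[t] y) := by
        have : ((u - M : ℕ) : ℤ) = u - M := by omega
        omega
      rw [le_idx hc1 (by omega)] at h6
      calc (c : ℤ) * 2 ^ (u - 1) = D * (c * 2 ^ (u - M - 1)) := by
            have : u - 1 = M + (u - M - 1) := by omega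
            rw [this, pow_add, hD]
            push_cast
            ring
        _ ≤ D * (T 3 d)^[t] y := mul_le_mul_of_nonneg_left h6 (by positivity)
  have hneg : ∀ v ∈ Mu, ((Yn v).image fun y => word 3 d y N).card ≤ 1 + (chg S).card * W := by
    intro v hv
    rcases (Yn v).eq_empty_or_nonempty with h | ⟨y0, hy0⟩
    · rw [h]
      simp
    have hy0' := hy0
    rw [hYn, mem_filter] at hy0'
    obtain ⟨-, hy01, hy02⟩ := hy0'
    have hv1 : 1 ≤ -v := by
      have h2 : ((1 : ℕ) : ℤ) ≤ idx c (-y0) := by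
        rw [le_idx hc1 le_rfl]
        have : (c : ℤ) ≤ X0 := by
          have : c ≤ X0 := by
            have : c ≤ N * D * c := Nat.le_mul_of_pos_left _ (by positivity)
            omega
          exact_mod_cast this
        simp only [le_refl, tsub_eq_zero_of_le, pow_zero, mul_one]
        omega
      rw [idx_neg] at h2
      push_cast at h2
      omega
    obtain ⟨u, hu⟩ : ∃ u : ℕ, (u : ℤ) = -v := ⟨(-v).toNat, by omega⟩
    have hu1 : 1 ≤ u := by omega
    have hcu : ∀ y ∈ nn (Yn v), (c : ℤ) * 2 ^ (u - 1) ≤ y ∧ y < 2 * ((c : ℤ) * 2 ^ (u - 1)) := by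
      intro y hy
      rw [mem_nn, hYn, mem_filter, idx_neg] at hy
      obtain ⟨-, hy1, hy2⟩ := hy
      have h3 : (u : ℤ) ≤ idx c y := by omega
      rw [le_idx hc1 hu1] at h3
      have h4 : ¬ ((u + 1 : ℕ) : ℤ) ≤ idx c y := by push_cast; omega
      rw [le_idx hc1 (by omega), Nat.add_sub_cancel] at h4
      have h5 : (2 : ℤ) ^ u = 2 * 2 ^ (u - 1) := by
        conv_lhs => rw [show u = (u - 1) + 1 by omega, pow_succ]
        ring
      rw [h5] at h4
      have : (c : ℤ) * (2 * 2 ^ (u - 1)) = 2 * (c * 2 ^ (u - 1)) := by ring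
      exact ⟨h3, by omega⟩
    have hXX : 8 * ((N : ℤ) * D * |-d|) ≤ c * 2 ^ (u - 1) := by
      have h3 := (hcu (-y0) (by rw [mem_nn, neg_neg]; exact hy0)).2
      have h4 : (X0 : ℤ) = 16 * (N * D * c) := by rw [hX0]; push_cast; ring
      rw [abs_neg, ← hcd]
      omega
    have huM : M + 4 ≤ u := by
      have h3 : 8 * ((N : ℤ) * D * c) ≤ c * 2 ^ (u - 1) := by
        rw [abs_neg] at hXX; rw [hcd]; rw [hcd] at hXX; exact hXX
      have h4 : (8 : ℤ) * D ≤ 2 ^ (u - 1) := by
        have h5 : (c : ℤ) * (8 * D) ≤ c * 2 ^ (u - 1) := by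
          refine le_trans ?_ h3
          have h6 : (1 : ℤ) ≤ N := by exact_mod_cast hN
          have h7 : (0 : ℤ) ≤ c * D := by positivity
          nlinarith
        exact le_of_mul_le_mul_left h5 (by omega)
      have h5 : (2 : ℕ) ^ (M + 3) ≤ 2 ^ (u - 1) := by
        rw [pow_add, ← hD]
        have : ((8 * D : ℕ) : ℤ) ≤ ((2 ^ (u - 1) : ℕ) : ℤ) := by push_cast; exact h4
        have h6 : 8 * D ≤ 2 ^ (u - 1) := by exact_mod_cast this
        omega
      have := (Nat.pow_le_pow_iff_right (by norm_num : 1 < 2)).1 h5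
      omega
    have himg' : ((Yn v).image fun y => word 3 d y N) = (nn (Yn v)).image fun y => word 3 (-d) y N := by
      ext l
      rw [mem_image, mem_image]
      constructor
      · rintro ⟨y, hy, rfl⟩
        exact ⟨-y, by rw [mem_nn, neg_neg]; exact hy, word_neg hd y N⟩
      · rintro ⟨y, hy, rfl⟩
        rw [mem_nn] at hy
        refine ⟨-y, hy, ?_⟩
        rw [← word_neg hd (-y) N, neg_neg]
    rw [himg', ← chg_nn S]
    have hres := words_lin (d := -d) (by omega) (S := nn S) (Y := nn (Yn v)) (X := (c : ℤ) * 2 ^ (u - 1)) hN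
      hD1 hXX hcu (by
        intro y hy t ht
        rw [mem_nn, hYn, mem_filter] at hy
        obtain ⟨j, hj1, hj2, hj3⟩ := hYm _ hy.1
        have h3 : (T 3 (-d))^[t] y = -((T 3 d)^[t] (-y)) := by
          rw [← iter_neg hd, neg_neg]
        rw [h3, mem_nn, neg_neg, ← hj3, ← Function.iterate_add_apply]
        exact mem_fst.2 ⟨t + j, by omega, rfl⟩) (by
        intro y hy t ht
        rw [mem_nn, hYn, mem_filter] at hy
        obtain ⟨hyY, hy1, hy2⟩ := hy
        obtain ⟨j, hj1, hj2, hj3⟩ := hYm _ hyY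
        have h0 : (T 3 (-d))^[t] y = -((T 3 d)^[t] (-y)) := by
          rw [← iter_neg hd, neg_neg]
        have h3 := path_near (e := fun j => idx c ((T 3 d)^[j] x)) (H := H) hstep (Mu := Mu) (j := j) t
          (by omega) (fun s hs => hj2 s (by omega))
        rw [hj3, hy2] at h3
        have h4 : (T 3 d)^[j + t] x = (T 3 d)^[t] (-y) := by
          rw [← hj3, ← Function.iterate_add_apply, add_comm]
        rw [h4] at h3
        have h5 := abs_le.1 (show |idx c ((T 3 d)^[t] (-y)) - v| ≤ M by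
          have : (Mu.card : ℤ) ≤ M := by exact_mod_cast hM
          omega)
        have h6 : ((u - M : ℕ) : ℤ) ≤ idx c ((T 3 (-d))^[t] y) := by
          have : ((u - M : ℕ) : ℤ) = u - M := by omega
          rw [h0, idx_neg]
          omega
        rw [le_idx hc1 (by omega)] at h6
        calc (c : ℤ) * 2 ^ (u - 1) = D * (c * 2 ^ (u - M - 1)) := by
              have : u - 1 = M + (u - M - 1) := by omega
              rw [this, pow_add, hD]
              push_cast
              ring
          _ ≤ D * (T 3 (-d))^[t] y := mul_le_mul_of_nonneg_left h6 (by positivity))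
    rw [Int.natAbs_neg] at hres
    exact hres
  have hlow : ((Y.filter fun y : ℤ => |y| < (X0 : ℤ)).image fun y => word 3 d y N).card ≤ 2 * X0 := by
    refine card_image_le.trans ?_
    have h2 : (Y.filter fun y : ℤ => |y| < (X0 : ℤ)) ⊆ Finset.Ioo (-(X0 : ℤ)) X0 := by
      intro y hy
      rw [mem_filter] at hy
      exact Finset.mem_Ioo.2 (abs_lt.1 hy.2)
    refine (card_le_card h2).trans ?_
    rw [Int.card_Ioo]
    omega
  refine (card_le_card himg).trans ((card_union_le _ _).trans ?_)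
  have h2 : (Mu.biUnion (fun v => (Yp v).image fun y => word 3 d y N)).card ≤ M * (1 + (chg S).card * W) := by
    refine card_biUnion_le.trans ((sum_le_sum hpos).trans ?_)
    rw [sum_const, smul_eq_mul]
    exact Nat.mul_le_mul_right _ hM
  have h3 : (Mu.biUnion (fun v => (Yn v).image fun y => word 3 d y N)).card ≤ M * (1 + (chg S).card * W) := by
    refine card_biUnion_le.trans ((sum_le_sum hneg).trans ?_)
    rw [sum_const, smul_eq_mul]
    exact Nat.mul_le_mul_right _ hM
  have h4 := card_union_le (Mu.biUnion (fun v => (Yp v).image fun y => word 3 d y N))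
    (Mu.biUnion (fun v => (Yn v).image fun y => word 3 d y N))
  have h5 : 32 * (N * D * c) = 2 * X0 := by rw [hX0]; ring
  rw [h5]
  omega

end Pool.Agent.V5helper2.FC
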