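import Mathlib
import Pool.Agent.V5helper2.FC.Main
import Pool.Agent.V5helper2.TR.Mono
import Pool.Agent.TH932.S2.G.Col

set_option autoImplicit false

/-!
Trajectories with few parity changes in their sorted list of terms: conclusions.
-/

namespace Pool.Agent.V5helper2.FC

open Finset Pool.Agent.H944.BX Pool.Agent.V5helper2.PC Pool.Agent.TH932.Words Pool.Agent.TH932.S2
open Pool.Agent.TH932.S2.F

variable {d : ℤ}

/-- **Linear complexity.** -/
theorem linear (hd : d % 2 = 1) (A : ℕ) : ∃ C : ℕ, ∀ (x : ℤ) (H N : ℕ), 1 ≤ N →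
    (chg (fst d x H)).card ≤ A → wc (wd f (T 3 d) x) H N ≤ C * N := by
  classical
  set c := d.natAbs with hc
  have hc1 : 1 ≤ c := by
    have : d ≠ 0 := by rintro rfl; norm_num at hd
    omega
  have hdc : |d| ≤ c := by rw [Int.abs_eq_natAbs]
  obtain ⟨M, hM⟩ : ∃ M, M = 5 + 6 * A := ⟨_, rfl⟩
  set C1 := 2 + 16 * (2 ^ M * c) + 64 * (2 ^ M * c) ^ 2 with hC1
  refine ⟨32 * (2 ^ M * c) + 2 * (M * (1 + A * C1)) + 2 + 4 * M, fun x H N hN hA => ?_⟩
  set S := fst d x H with hS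
  obtain ⟨Mu, hMu, hMu0, hMu1, hMu2, hpar⟩ := exists_mu c hc1 S
  have hMuM : Mu.card ≤ M := by omega
  have hmem : ∀ j < H, (T 3 d)^[j] x ∈ S := fun j hj => mem_fst.2 ⟨j, hj, rfl⟩
  have hstep : ∀ j, j + 1 < H → |idx c ((T 3 d)^[j + 1] x) - idx c ((T 3 d)^[j] x)| ≤ 1 := by
    intro j _
    rw [Function.iterate_succ_apply']
    exact step_all hc1 hd hdc _
  have hp : ∀ v, v ∉ Mu → ∀ j < H, ∀ j' < H, |idx c ((T 3 d)^[j] x) - v| ≤ 1 →
      |idx c ((T 3 d)^[j'] x) - v| ≤ 1 → (T 3 d)^[j] x % 2 = (T 3 d)^[j'] x % 2 :=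
    fun v hv j hj j' hj' h1 h2 => hpar v hv _ (hmem j hj) _ (hmem j' hj') h1 h2
  have hv2 : ∀ v, v ∉ Mu → 2 ≤ v ∨ 2 ≤ -v := by
    intro v hv
    by_contra hcon
    push Not at hcon
    have : v = 0 ∨ v = 1 ∨ v = -1 := by omega
    rcases this with rfl | rfl | rfl
    · exact hv hMu0
    · exact hv hMu1
    · exact hv hMu2
  -- the reflected trajectory
  have hp' : ∀ v, v ∉ Mu → ∀ j < H, ∀ j' < H, |idx c ((T 3 (-d))^[j] (-x)) - (-v)| ≤ 1 →
      |idx c ((T 3 (-d))^[j'] (-x)) - (-v)| ≤ 1 →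
      (T 3 (-d))^[j] (-x) % 2 = (T 3 (-d))^[j'] (-x) % 2 := by
    intro v hv j hj j' hj' h1 h2
    rw [iter_neg hd, idx_neg] at h1 h2
    rw [iter_neg hd, iter_neg hd]
    have h3 := hp v hv j hj j' hj' (by rw [abs_le] at h1 ⊢; omega) (by rw [abs_le] at h2 ⊢; omega)
    omega
  have h := wc_path (wd f (T 3 d) x) (fun j => idx c ((T 3 d)^[j] x)) (H := H) (N := N) hN Mu hstep
    (by
      intro s s' hs hs' h1 h2 h3 h4
      rcases hv2 _ h2 with h5 | h5
      · exact leave_pos hc1 hd hdc (t := fun j => (T 3 d)^[j] x) (fun j => Function.iterate_succ_apply' _ _ _)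
          h5 (hp _ h2) hs hs' rfl h1.symm h3 (by rw [h1]; exact h4)
      · refine leave_pos (d := -d) hc1 (by omega) (by rw [abs_neg]; exact hdc)
          (t := fun j => (T 3 (-d))^[j] (-x)) (fun j => Function.iterate_succ_apply' _ _ _)
          h5 (hp' _ h2) hs hs' ?_ ?_ ?_ ?_
        · rw [iter_neg hd, idx_neg]
        · rw [iter_neg hd, idx_neg, h1]
        · rw [iter_neg hd, idx_neg]
          intro h6
          exact h3 (by omega)
        · rw [iter_neg hd, idx_neg]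
          intro h6
          exact h4 (by omega))
    (by
      intro s s' hs hs' h1 h2 h3 h4
      rcases hv2 _ h2 with h5 | h5
      · exact enter_pos hc1 hd hdc (t := fun j => (T 3 d)^[j] x) (fun j => Function.iterate_succ_apply' _ _ _)
          h5 (hp _ h2) hs hs' rfl h1.symm h3.symm (by rw [h1]; exact h4.symm)
      · refine enter_pos (d := -d) hc1 (by omega) (by rw [abs_neg]; exact hdc)
          (t := fun j => (T 3 (-d))^[j] (-x)) (fun j => Function.iterate_succ_apply' _ _ _)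
          h5 (hp' _ h2) hs hs' ?_ ?_ ?_ ?_
        · rw [iter_neg hd, idx_neg]
        · rw [iter_neg hd, idx_neg, h1]
        · rw [iter_neg hd, idx_neg]
          intro h6
          exact h3 (by omega)
        · rw [iter_neg hd, idx_neg]
          intro h6
          exact h4 (by omega))
    (by
      intro j hj h1 h2
      unfold wd
      rw [f_eq]
      exact hp _ h1 j (by omega) (j + 1) hj (by rw [sub_self, abs_zero]; norm_num) (hstep j hj))
    (typeA hd x hN hMuM)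
  have h0 : wc (wd f (T 3 d) x) H N ≤ 32 * (N * 2 ^ M * c) + 2 * (M * (1 + (chg S).card * (N * C1))) + 2 +
      4 * Mu.card * N := h
  refine h0.trans ?_
  have h1 : 32 * (N * 2 ^ M * c) = 32 * (2 ^ M * c) * N := by ring
  have h2 : 2 * (M * (1 + (chg S).card * (N * C1))) ≤ 2 * (M * (1 + A * C1)) * N := by
    have h3 : 1 + (chg S).card * (N * C1) ≤ (1 + A * C1) * N := by
      calc 1 + (chg S).card * (N * C1) ≤ N + A * (N * C1) := add_le_add hN (Nat.mul_le_mul_right _ hA)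
        _ = (1 + A * C1) * N := by ring
    calc 2 * (M * (1 + (chg S).card * (N * C1))) ≤ 2 * (M * ((1 + A * C1) * N)) :=
          Nat.mul_le_mul_left _ (Nat.mul_le_mul_left _ h3)
      _ = 2 * (M * (1 + A * C1)) * N := by ring
  have h4 : 4 * Mu.card * N ≤ 4 * M * N := Nat.mul_le_mul_right _ (Nat.mul_le_mul_left _ hMuM)
  have h5 : (32 * (2 ^ M * c) + 2 * (M * (1 + A * C1)) + 2 + 4 * M) * N =
    32 * (2 ^ M * c) * N + 2 * (M * (1 + A * C1)) * N + 2 * N + 4 * M * N := by ring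
  rw [h5, h1]
  exact add_le_add (add_le_add (add_le_add le_rfl h2) (by omega)) h4

/-- the map `3x+d` -/
theorem mp3 (hd : d % 2 = 1) : Mp Pool.Agent.TH932.S2.G.Col.T d f (T 3 d) where
  hd := by
    change IsCoprime d ((2 : ℕ) : ℤ)
    refine ⟨1, -(d / 2), ?_⟩
    push_cast
    omega
  hG := by
    intro y
    change ((2 : ℕ) : ℤ) * T 3 d y = ((3 : ℕ) : ℤ) ^ Pool.Agent.TH932.S2.G.Col.dl (f y) * y +
      d * (Pool.Agent.TH932.S2.G.Col.dl (f y) : ℤ)
    rcases Int.emod_two_eq_zero_or_one y with h1 | h1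
    · have hw : Pool.Agent.TH932.S2.G.Col.dl (f y) = 0 := by
        unfold Pool.Agent.TH932.S2.G.Col.dl
        rw [if_neg]
        unfold f
        rw [Pool.Agent.TH932.S2.G.Col.par_odd]; omega
      have h2 := two_mul_T_even (a := 3) (b := d) (x := y) (by omega)
      rw [hw]
      push_cast
      omega
    · have hw : Pool.Agent.TH932.S2.G.Col.dl (f y) = 1 := by
        unfold Pool.Agent.TH932.S2.G.Col.dl
        rw [if_pos]
        unfold f
        rw [Pool.Agent.TH932.S2.G.Col.par_odd]; exact h1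
      have h2 := two_mul_T_odd (a := 3) (b := d) (by norm_num) hd h1
      rw [hw]
      push_cast
      omega

/-- **Trajectories with few parity changes enter small cycles.** -/
theorem few (hd : d % 2 = 1) (A : ℕ) : ∃ K : ℕ, 1 ≤ K ∧ ∀ (x : ℤ) (N : ℕ), 1 ≤ N →
    |(x : ℝ)| ≤ Real.exp N → (chg (fst d x (K * N))).card ≤ A →
    ∃ i ≤ K * N, (∃ k, 1 ≤ k ∧ k ≤ K ∧ (T 3 d)^[k] ((T 3 d)^[i] x) = (T 3 d)^[i] x) ∧
      ∀ j, |(T 3 d)^[j] ((T 3 d)^[i] x)| ≤ K := by
  obtain ⟨C, hC⟩ := linear hd A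
  obtain ⟨K0, hK0, henter⟩ := enter bd_thm su_thm kp_thm Pool.Agent.TH932.S2.G.Col.T (C : ℝ)
  have hd1 : (1 : ℝ) ≤ |(d : ℝ)| := by
    have : 1 ≤ |d| := Int.one_le_abs (by rintro rfl; norm_num at hd)
    exact_mod_cast this
  have hld : 0 ≤ Real.log |(d : ℝ)| := Real.log_nonneg hd1
  obtain ⟨n0, hn0⟩ := exists_nat_ge (Real.log |(d : ℝ)|)
  obtain ⟨K1, hK1⟩ := exists_nat_ge (K0 * (Real.log |(d : ℝ)| + 1))
  obtain ⟨K2, hK2⟩ := exists_nat_ge (Real.exp (K0 * (Real.log |(d : ℝ)| + 1)))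
  refine ⟨K0 * (1 + n0) + K1 + K2, by nlinarith, fun x N hN hx hA => ?_⟩
  set K := K0 * (1 + n0) + K1 + K2 with hK
  have hle : K0 * (N + n0) ≤ K * N := by
    have h1 : N + n0 ≤ (1 + n0) * N := by nlinarith
    calc K0 * (N + n0) ≤ K0 * ((1 + n0) * N) := Nat.mul_le_mul_left _ h1
      _ = K0 * (1 + n0) * N := by ring
      _ ≤ K * N := Nat.mul_le_mul_right _ (by omega)
  have hsub : fst d x (K0 * (N + n0)) ⊆ fst d x (K * N) := by
    intro z hz
    obtain ⟨j, hj, h1⟩ := mem_fst.1 hz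
    exact mem_fst.2 ⟨j, by omega, h1⟩
  have hA' : (chg (fst d x (K0 * (N + n0)))).card ≤ A := (Pool.Agent.V5helper2.TR.chg_mono hsub).trans hA
  obtain ⟨i, hi, hz, hper, habs⟩ := henter d f (T 3 d) (mp3 hd) x 1 (N + n0) le_rfl (by omega) (by
      rw [← Real.log_le_iff_le_exp (by linarith)]
      push_cast
      have : (0 : ℝ) ≤ N := Nat.cast_nonneg _
      linarith) (by
      refine hx.trans (Real.exp_le_exp.2 ?_)
      push_cast
      have : (0 : ℝ) ≤ n0 := Nat.cast_nonneg _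
      linarith) (by
      intro m hm1 _
      exact_mod_cast hC x (K0 * (N + n0)) m hm1 hA')
  push_cast at hper habs
  set z := (T 3 d)^[i] x with hzd
  have hπ1 : 1 ≤ Function.minimalPeriod (T 3 d) z := Function.minimalPeriod_pos_of_mem_periodicPts hz
  refine ⟨i, hi.trans hle, ⟨Function.minimalPeriod (T 3 d) z, hπ1, ?_, Function.iterate_minimalPeriod⟩, ?_⟩
  · have h1 : (Function.minimalPeriod (T 3 d) z : ℝ) ≤ K1 := hper.trans hK1
    have h2 : Function.minimalPeriod (T 3 d) z ≤ K1 := by exact_mod_cast h1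
    omega
  · intro j
    have h1 : |(((T 3 d)^[j] z : ℤ) : ℝ)| ≤ K2 := (habs j).trans hK2
    have h2 : |(T 3 d)^[j] z| ≤ (K2 : ℤ) := by exact_mod_cast h1
    have h3 : (K2 : ℤ) ≤ K := by exact_mod_cast (by omega : K2 ≤ K)
    exact h2.trans h3

end Pool.Agent.V5helper2.FC
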