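import Mathlib
import Pool.Agent.V5helper2.FC.Fin

set_option autoImplicit false

/-!
Trajectories with few parity changes: logarithmic time.
-/

namespace Pool.Agent.V5helper2.FC

open Finset Pool.Agent.H944.BX Pool.Agent.V5helper2.PC

variable {d : ℤ}

theorem fst_mono (d x : ℤ) {H H' : ℕ} (h : H ≤ H') : fst d x H ⊆ fst d x H' := by
  intro z hz
  obtain ⟨j, hj, h1⟩ := mem_fst.1 hz
  exact mem_fst.2 ⟨j, by omega, h1⟩

/-- **Logarithmic form.** -/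
theorem few_log (hd : d % 2 = 1) (A : ℕ) : ∃ K : ℕ, 1 ≤ K ∧ ∀ L : ℕ, K ≤ L → ∀ x : ℤ, 2 ≤ |x| →
    (chg (fst d x ⌊(L : ℝ) * Real.log |(x : ℝ)|⌋₊)).card ≤ A →
    ∃ i : ℕ, (i : ℝ) ≤ K * Real.log |(x : ℝ)| ∧
      (∃ k, 1 ≤ k ∧ k ≤ K ∧ (T 3 d)^[k] ((T 3 d)^[i] x) = (T 3 d)^[i] x) ∧
      ∀ j, |(T 3 d)^[j] ((T 3 d)^[i] x)| ≤ K := by
  obtain ⟨K0, hK0, h⟩ := few hd A
  refine ⟨3 * K0, by omega, fun L hL x hx hA => ?_⟩
  have hx2 : (2 : ℝ) ≤ |(x : ℝ)| := by exact_mod_cast hx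
  have hlog : (0.69 : ℝ) ≤ Real.log |(x : ℝ)| := by
    have h1 := Real.log_two_gt_d9
    have h2 := Real.log_le_log (by norm_num) hx2
    linarith
  obtain ⟨N, hN⟩ : ∃ N, N = ⌈Real.log |(x : ℝ)|⌉₊ := ⟨_, rfl⟩
  have hN1 : Real.log |(x : ℝ)| ≤ N := by rw [hN]; exact Nat.le_ceil _
  have hN2 : (N : ℝ) < Real.log |(x : ℝ)| + 1 := by rw [hN]; exact Nat.ceil_lt_add_one (by linarith)
  have hN0 : 1 ≤ N := by
    have : (0 : ℝ) < N := by linarith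
    exact_mod_cast this
  have hK0R : (1 : ℝ) ≤ K0 := by exact_mod_cast hK0
  have hKN : ((K0 * N : ℕ) : ℝ) ≤ 3 * K0 * Real.log |(x : ℝ)| := by
    push_cast
    nlinarith
  have hLR : (3 * K0 : ℝ) ≤ L := by exact_mod_cast hL
  have hKN' : K0 * N ≤ ⌊(L : ℝ) * Real.log |(x : ℝ)|⌋₊ := by
    apply Nat.le_floor
    refine hKN.trans (mul_le_mul_of_nonneg_right hLR (by linarith))
  obtain ⟨i, hi, ⟨k, hk1, hk2, hk3⟩, hb⟩ := h x N hN0 (by
      rw [← Real.log_le_iff_le_exp (by linarith)]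
      exact hN1) ((Pool.Agent.V5helper2.TR.chg_mono (fst_mono d x hKN')).trans hA)
  refine ⟨i, ?_, ⟨k, hk1, by omega, hk3⟩, fun j => (hb j).trans ?_⟩
  · have h1 : (i : ℝ) ≤ ((K0 * N : ℕ) : ℝ) := by exact_mod_cast hi
    push_cast at hKN h1 ⊢
    linarith
  · push_cast
    have : (0 : ℤ) ≤ K0 := by positivity
    omega

/-- The whole trajectory. -/
theorem few_all (hd : d % 2 = 1) (A : ℕ) : ∃ K : ℕ, ∀ x : ℤ, (∀ H, (chg (fst d x H)).card ≤ A) →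
    ∃ i : ℕ, (∃ k, 1 ≤ k ∧ (T 3 d)^[k] ((T 3 d)^[i] x) = (T 3 d)^[i] x) ∧ |(T 3 d)^[i] x| ≤ K := by
  obtain ⟨K0, hK0, h⟩ := few hd A
  refine ⟨K0, fun x hA => ?_⟩
  obtain ⟨N, hN⟩ := exists_nat_ge (Real.log |(x : ℝ)| + 1)
  rcases eq_or_ne x 0 with h0 | h0
  · obtain ⟨i, hi, ⟨k, hk1, hk2, hk3⟩, hb⟩ := h x 1 le_rfl (by
      rw [h0]
      simp [Real.exp_nonneg]) (hA _)
    exact ⟨i, ⟨k, hk1, hk3⟩, hb 0⟩
  · have hx1 : (1 : ℝ) ≤ |(x : ℝ)| := by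
      have : 1 ≤ |x| := Int.one_le_abs h0
      exact_mod_cast this
    have hl : 0 ≤ Real.log |(x : ℝ)| := Real.log_nonneg hx1
    have hN0 : 1 ≤ N := by
      have : (1 : ℝ) ≤ N := by linarith
      exact_mod_cast this
    obtain ⟨i, hi, ⟨k, hk1, hk2, hk3⟩, hb⟩ := h x N hN0 (by
      rw [← Real.log_le_iff_le_exp (by linarith)]
      linarith) (hA _)
    exact ⟨i, ⟨k, hk1, hk3⟩, hb 0⟩

/-- Infinite trajectories have unboundedly many changes. -/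
theorem infinite_changes (hd : d % 2 = 1) (x : ℤ) (hinf : (Set.range fun j : ℕ => (T 3 d)^[j] x).Infinite)
    (A : ℕ) : ∃ H0, ∀ H, H0 ≤ H → A < (chg (fst d x H)).card := by
  by_contra hcon
  push Not at hcon
  have hall : ∀ H, (chg (fst d x H)).card ≤ A := by
    intro H
    obtain ⟨H', h1, h2⟩ := hcon H
    exact (Pool.Agent.V5helper2.TR.chg_mono (fst_mono d x h1)).trans h2
  obtain ⟨K, hK⟩ := few_all hd A
  obtain ⟨i, ⟨k, hk1, hk2⟩, -⟩ := hK x hall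
  apply hinf
  have hsub : (Set.range fun j : ℕ => (T 3 d)^[j] x) ⊆
      ((range (i + k)).image fun j => (T 3 d)^[j] x : Finset ℤ) := by
    rintro _ ⟨j, rfl⟩
    rw [mem_coe, mem_image]
    rcases Nat.lt_or_ge j i with hj | hj
    · exact ⟨j, mem_range.2 (by omega), rfl⟩
    · refine ⟨(j - i) % k + i, mem_range.2 ?_, ?_⟩
      · have := Nat.mod_lt (j - i) (show 0 < k by omega)
        omega
      · show (T 3 d)^[(j - i) % k + i] x = (T 3 d)^[j] x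
        rw [Function.iterate_add_apply]
        have h3 : (T 3 d)^[j] x = (T 3 d)^[j - i] ((T 3 d)^[i] x) := by
          rw [← Function.iterate_add_apply, Nat.sub_add_cancel hj]
        rw [h3]
        exact Function.IsPeriodicPt.iterate_mod_apply (f := T 3 d) (x := (T 3 d)^[i] x) (n := k) hk2 (j - i)
  exact (Finset.finite_toSet _).subset hsub

end Pool.Agent.V5helper2.FC
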