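import Mathlib
import Pool.Agent.V5helper2.FC.Log

set_option autoImplicit false

/-!
Trajectories with few parity changes: natural numbers.
-/

namespace Pool.Agent.V5helper2.FC

open Finset Pool.Agent.H944.BX Pool.Agent.V5helper2.PC Pool.Agent.V5helper2.TR

/-- the `3x+1` function on the natural numbers -/
def TN (n : ℕ) : ℕ := if n % 2 = 0 then n / 2 else (3 * n + 1) / 2

theorem TN_cast (n : ℕ) : T 3 1 (n : ℤ) = ((TN n : ℕ) : ℤ) := by
  unfold T TN
  rcases Nat.mod_two_eq_zero_or_one n with h | h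
  · rw [if_pos (by omega), if_pos h]; omega
  · rw [if_neg (by omega), if_neg (by omega)]; omega

theorem TN_iter (n j : ℕ) : (T 3 1)^[j] (n : ℤ) = ((TN^[j] n : ℕ) : ℤ) := by
  induction j with
  | zero => rfl
  | succ j ih => rw [Function.iterate_succ_apply', ih, TN_cast, Function.iterate_succ_apply']

/-- the set of the first `H` terms -/
def fstN (F : ℕ → ℕ) (n H : ℕ) : Finset ℕ := (range H).image fun j => F^[j] n

theorem mem_fstN {F : ℕ → ℕ} {n H m : ℕ} : m ∈ fstN F n H ↔ ∃ j < H, F^[j] n = m := by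
  unfold fstN
  rw [mem_image]
  constructor
  · rintro ⟨j, hj, rfl⟩
    exact ⟨j, mem_range.1 hj, rfl⟩
  · rintro ⟨j, hj, rfl⟩
    exact ⟨j, mem_range.2 hj, rfl⟩

theorem cst'_mono {S S' : Finset ℕ} (h : S ⊆ S') : cst' S ⊆ cst' S' := by
  intro z hz
  obtain ⟨m, hm, rfl⟩ := mem_cst'.1 hz
  exact mem_cst'.2 ⟨m, h hm, rfl⟩

theorem changesN_mono {S S' : Finset ℕ} (h : S ⊆ S') : changesN S ≤ changesN S' := by
  rw [changesN_eq, changesN_eq]
  exact chg_mono (cst'_mono h)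

theorem fst_TN (n H : ℕ) : fst 1 (n : ℤ) H = cst' (fstN TN n H) := by
  ext z
  rw [mem_fst, mem_cst']
  constructor
  · rintro ⟨j, hj, rfl⟩
    exact ⟨TN^[j] n, mem_fstN.2 ⟨j, hj, rfl⟩, (TN_iter n j).symm⟩
  · rintro ⟨m, hm, rfl⟩
    obtain ⟨j, hj, rfl⟩ := mem_fstN.1 hm
    exact ⟨j, hj, TN_iter n j⟩

/-- **Logarithmic form.** -/
theorem nat_log (A : ℕ) : ∃ K : ℕ, 1 ≤ K ∧ ∀ L : ℕ, K ≤ L → ∀ n : ℕ, 2 ≤ n →
    changesN (fstN TN n ⌊(L : ℝ) * Real.log n⌋₊) ≤ A →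
    ∃ i : ℕ, (i : ℝ) ≤ K * Real.log n ∧ (∃ k, 1 ≤ k ∧ k ≤ K ∧ TN^[k] (TN^[i] n) = TN^[i] n) ∧
      ∀ j, TN^[j] (TN^[i] n) ≤ K := by
  obtain ⟨K, hK, h⟩ := few_log (d := 1) (by norm_num) A
  refine ⟨K, hK, fun L hL n hn hA => ?_⟩
  have habs : |(((n : ℕ) : ℤ) : ℝ)| = n := by
    rw [Int.cast_natCast, abs_of_nonneg (by positivity)]
  obtain ⟨i, hi, ⟨k, hk1, hk2, hk3⟩, hb⟩ := h L hL (n : ℤ)
    (by rw [abs_of_nonneg (by positivity)]; exact_mod_cast hn) (by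
      rw [habs, fst_TN, ← changesN_eq]
      exact hA)
  rw [habs] at hi
  rw [TN_iter, TN_iter] at hk3
  refine ⟨i, hi, ⟨k, hk1, hk2, by exact_mod_cast hk3⟩, fun j => ?_⟩
  have h1 := hb j
  rw [TN_iter, TN_iter, abs_of_nonneg (by positivity)] at h1
  exact_mod_cast h1

/-- the cycle of `1` -/
theorem TN_one (j : ℕ) : TN^[j] 1 = 1 ∨ TN^[j] 1 = 2 := by
  induction j with
  | zero => exact Or.inl rfl
  | succ j ih =>
    rw [Function.iterate_succ_apply']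
    rcases ih with h | h
    · rw [h]; exact Or.inr rfl
    · rw [h]; exact Or.inl rfl

theorem per_TN {z k r : ℕ} (hk : 1 ≤ k) (hz : TN^[k] z = z) (hr : TN^[r] z = 1) : z = 1 ∨ z = 2 := by
  have h1 : TN^[k * (r + 1)] z = z := (Function.IsPeriodicPt.mul_const (f := TN) (x := z) (m := k) hz (r + 1))
  have h2 : r ≤ k * (r + 1) := by nlinarith
  have h3 : TN^[k * (r + 1) - r] (TN^[r] z) = z := by
    rw [← Function.iterate_add_apply, Nat.sub_add_cancel h2, h1]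
  rw [hr] at h3
  rw [← h3]
  exact TN_one _

/-- **The total stopping time.** -/
theorem time_le_log (A : ℕ) : ∃ K : ℕ, ∀ n s : ℕ, 2 ≤ n → TN^[s] n = 1 → (∀ j < s, TN^[j] n ≠ 1) →
    changesN (fstN TN n (s + 1)) ≤ A → (s : ℝ) ≤ K * Real.log n := by
  obtain ⟨K, hK, h⟩ := nat_log A
  refine ⟨K + 2, fun n s hn hs hmin hA => ?_⟩
  have hn2 : (2 : ℝ) ≤ n := by exact_mod_cast hn
  have hlog : (0.69 : ℝ) ≤ Real.log n := by
    have h1 := Real.log_two_gt_d9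
    have h2 := Real.log_le_log (by norm_num) hn2
    linarith
  by_contra hcon
  push Not at hcon
  push_cast at hcon
  have hKR : (1 : ℝ) ≤ K := by exact_mod_cast hK
  have hfl : ⌊(K : ℝ) * Real.log n⌋₊ ≤ s + 1 := by
    have h1 := Nat.floor_le (show 0 ≤ (K : ℝ) * Real.log n by positivity)
    have h2 : ((⌊(K : ℝ) * Real.log n⌋₊ : ℕ) : ℝ) ≤ ((s + 1 : ℕ) : ℝ) := by
      push_cast
      linarith
    exact_mod_cast h2
  obtain ⟨i, hi, ⟨k, hk1, hk2, hk3⟩, -⟩ := h K le_rfl n hn ((changesN_mono (by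
    intro m hm
    obtain ⟨j, hj, h1⟩ := mem_fstN.1 hm
    exact mem_fstN.2 ⟨j, by omega, h1⟩)).trans hA)
  have his : i ≤ s := by
    have : (i : ℝ) ≤ s := by linarith
    exact_mod_cast this
  have hr : TN^[s - i] (TN^[i] n) = 1 := by
    rw [← Function.iterate_add_apply, Nat.sub_add_cancel his, hs]
  have hsi : s ≤ i + 1 := by
    by_contra hc
    rcases per_TN hk1 hk3 hr with h1 | h1
    · exact hmin i (by omega) h1
    · refine hmin (i + 1) (by omega) ?_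
      rw [Function.iterate_succ_apply', h1]
      rfl
  have : (s : ℝ) ≤ i + 1 := by exact_mod_cast hsi
  linarith

/-! ### the Collatz function -/

theorem C_eq : Pool.Agent.V5helper2.TR.C = Pool.Agent.TH932.S2.G.Col.Cn := rfl

open Pool.Agent.TH932.S2.G in
theorem TN_C (n j : ℕ) : TN^[j] n = C^[Col.ph (n : ℤ) j] n := by
  have h1 := TN_iter n j
  have h2 : (T 3 1)^[j] (n : ℤ) = Col.G^[j] (n : ℤ) := rfl
  rw [h2, Col.G_iter] at h1
  have h3 : Col.yy (n : ℤ) j = Col.C^[Col.ph (n : ℤ) j] (n : ℤ) := rfl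
  rw [h3, ← Col.Cn_iter] at h1
  rw [C_eq]
  exact_mod_cast h1.symm

open Pool.Agent.TH932.S2.G in
theorem C_log (A : ℕ) : ∃ K : ℕ, 1 ≤ K ∧ ∀ L : ℕ, K ≤ L → ∀ n : ℕ, 2 ≤ n →
    changesN (fstN C n ⌊(L : ℝ) * Real.log n⌋₊) ≤ A →
    ∃ i : ℕ, (i : ℝ) ≤ K * Real.log n ∧ (∃ k, 1 ≤ k ∧ k ≤ K ∧ C^[k] (C^[i] n) = C^[i] n) ∧
      ∀ j, C^[j] (C^[i] n) ≤ K := by
  obtain ⟨K, hK, h⟩ := nat_log A
  refine ⟨3 * K + 1, by omega, fun L hL n hn hA => ?_⟩
  have hn2 : (2 : ℝ) ≤ n := by exact_mod_cast hn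
  have hlog : (0.69 : ℝ) ≤ Real.log n := by
    have h1 := Real.log_two_gt_d9
    have h2 := Real.log_le_log (by norm_num) hn2
    linarith
  have hKR : (1 : ℝ) ≤ K := by exact_mod_cast hK
  obtain ⟨i, hi, ⟨k, hk1, hk2, hk3⟩, hb⟩ := h K le_rfl n hn ((changesN_mono (by
    intro m hm
    obtain ⟨j, hj, h1⟩ := mem_fstN.1 hm
    refine mem_fstN.2 ⟨Col.ph (n : ℤ) j, ?_, ?_⟩
    · have h2 := Col.ph_le (n : ℤ) j
      have h3 : 2 * ⌊(K : ℝ) * Real.log n⌋₊ ≤ ⌊(L : ℝ) * Real.log n⌋₊ := by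
        apply Nat.le_floor
        have h4 := Nat.floor_le (show 0 ≤ (K : ℝ) * Real.log n by positivity)
        have h5 : (3 * K + 1 : ℝ) ≤ L := by exact_mod_cast hL
        have h6 : (3 * K + 1 : ℝ) * Real.log n ≤ L * Real.log n :=
          mul_le_mul_of_nonneg_right h5 (by linarith)
        push_cast
        nlinarith
      omega
    · rw [← TN_C]
      exact h1)).trans hA)
  set z := TN^[i] n with hz
  have hzC : C^[Col.ph (n : ℤ) i] n = z := (TN_C n i).symm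
  refine ⟨Col.ph (n : ℤ) i, ?_, ⟨Col.ph (z : ℤ) k, hk1.trans (Col.ph_ge (z : ℤ) k), ?_, ?_⟩, ?_⟩
  · have h1 : ((Col.ph (n : ℤ) i : ℕ) : ℝ) ≤ 2 * i := by exact_mod_cast Col.ph_le (n : ℤ) i
    push_cast
    nlinarith
  · have := Col.ph_le (z : ℤ) k
    omega
  · rw [hzC, ← TN_C]
    exact hk3
  · intro j
    rw [hzC]
    obtain ⟨r, h1 | ⟨-, h1⟩⟩ := Col.C_iter (z : ℤ) j
    · rw [← Col.Cn_iter] at h1
      have h2 : Col.G^[r] (z : ℤ) = ((TN^[r] z : ℕ) : ℤ) := TN_iter z r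
      rw [h2] at h1
      have h3 : Col.Cn^[j] z = TN^[r] z := by exact_mod_cast h1
      rw [C_eq, h3]
      have := hb r
      omega
    · rw [← Col.Cn_iter] at h1
      have h2 : Col.G^[r] (z : ℤ) = ((TN^[r] z : ℕ) : ℤ) := TN_iter z r
      rw [h2] at h1
      have h3 : Col.Cn^[j] z = 3 * TN^[r] z + 1 := by exact_mod_cast h1
      rw [C_eq, h3]
      have := hb r
      omega

open Pool.Agent.TH932.S2.G in
/-- **The total stopping time, for the Collatz function.** -/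
theorem C_time_le_log (A : ℕ) : ∃ K : ℕ, ∀ n l : ℕ, 2 ≤ n → HasTime n l →
    changesN (terms n l) ≤ A → (l : ℝ) ≤ K * Real.log n := by
  obtain ⟨K, hK, h⟩ := C_log A
  refine ⟨K + 3, fun n l hn hl hA => ?_⟩
  have hn2 : (2 : ℝ) ≤ n := by exact_mod_cast hn
  have hlog : (0.69 : ℝ) ≤ Real.log n := by
    have h1 := Real.log_two_gt_d9
    have h2 := Real.log_le_log (by norm_num) hn2
    linarith
  by_contra hcon
  push Not at hcon
  push_cast at hcon
  have hKR : (1 : ℝ) ≤ K := by exact_mod_cast hK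
  have hfl : ⌊(K : ℝ) * Real.log n⌋₊ ≤ l + 1 := by
    have h1 := Nat.floor_le (show 0 ≤ (K : ℝ) * Real.log n by positivity)
    have h2 : ((⌊(K : ℝ) * Real.log n⌋₊ : ℕ) : ℝ) ≤ ((l + 1 : ℕ) : ℝ) := by
      push_cast
      linarith
    exact_mod_cast h2
  obtain ⟨i, hi, ⟨k, hk1, hk2, hk3⟩, -⟩ := h K le_rfl n hn ((changesN_mono (by
    intro m hm
    obtain ⟨j, hj, h1⟩ := mem_fstN.1 hm
    exact mem_terms.2 ⟨j, by omega, h1⟩)).trans hA)
  have his : i ≤ l := by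
    have : (i : ℝ) ≤ l := by linarith
    exact_mod_cast this
  have hr : C^[l - i] (C^[i] n) = 1 := by
    rw [← Function.iterate_add_apply, Nat.sub_add_cancel his, hl.1]
  have hsi : l ≤ i + 2 := by
    by_contra hc
    rcases Col.per_one hk1 hk3 hr with h1 | h1 | h1
    · exact hl.2 i (by omega) h1
    · refine hl.2 (i + 1) (by omega) ?_
      rw [Function.iterate_succ_apply']
      change C (C^[i] n) = 1
      have h2 : C^[i] n = 2 := h1
      rw [h2]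
      rfl
    · refine hl.2 (i + 2) (by omega) ?_
      have h2 : C^[i] n = 4 := h1
      rw [Function.iterate_succ_apply', Function.iterate_succ_apply', h2]
      rfl
  have : (l : ℝ) ≤ i + 2 := by exact_mod_cast hsi
  linarith

end Pool.Agent.V5helper2.FC
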